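import Mathlib

/-!
# Circuits with modular and truncated counting gates, and their symmetries
-/

set_option autoImplicit false

namespace Pool.Agent.SymCirc

/-- A circuit in the variables `x 0, …, x (n - 1)`, with input nodes `ι` and gates `G`, of unbounded
fan-in and arbitrary depth. -/
structure Circuit (n : ℕ) (ι G : Type) where
  /-- the variable or the constant carried by an input node -/
  label : ι → Fin n ⊕ Bool
  /-- `wires g a` is the number of wires from the node `a` to the gate `g` -/
  wires : G → ι ⊕ G → ℕ
  /-- `acc g c`: the gate `g` has the value true if `c` of the wires entering it carry true -/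
  acc : G → ℕ → Prop
  /-- the level of a gate -/
  level : G → ℕ
  level_lt : ∀ g h, wires g (Sum.inr h) ≠ 0 → level h < level g

namespace Circuit

variable {n : ℕ} {ι G : Type}

/-- The permutations `ρ` of the variables, `σ` of the input nodes and `τ` of the gates form an
automorphism of the circuit. -/
def IsAut (C : Circuit n ι G) (ρ : Equiv.Perm (Fin n)) (σ : Equiv.Perm ι) (τ : Equiv.Perm G) :
    Prop :=
  (∀ i, C.label (σ i) = Sum.map ρ id (C.label i)) ∧
    (∀ g a, C.wires (τ g) (Sum.map σ τ a) = C.wires g a) ∧ ∀ g, C.acc (τ g) = C.acc g

/-- The permutation `ρ` of the variables is a symmetry: it extends to an automorphism. -/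
def IsSymmetry (C : Circuit n ι G) (ρ : Equiv.Perm (Fin n)) : Prop := ∃ σ τ, C.IsAut ρ σ τ

variable [Fintype ι] [Fintype G]

/-- The number of wires entering a gate. -/
def fanIn (C : Circuit n ι G) (g : G) : ℕ := ∑ a, C.wires g a

/-- The number of wires entering `g` that carry the value true, if the variables have the values
`x` and the gates the values `v`. -/
def count (C : Circuit n ι G) (x : Fin n → Bool) (v : G → Bool) (g : G) : ℕ :=
  ∑ a, if Sum.elim (fun i => Sum.elim x id (C.label i)) v a = true then C.wires g a else 0

/-- `v` is the vector of the values of the gates on the input `x`. -/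
def IsRun (C : Circuit n ι G) (x : Fin n → Bool) (v : G → Bool) : Prop :=
  ∀ g, v g = true ↔ C.acc g (C.count x v g)

/-- The value of the gate `g` on an input with `w` ones is the truth of `F w`. -/
def Computes (C : Circuit n ι G) (g : G) (F : ℕ → Prop) : Prop :=
  ∀ x : Fin n → Bool, ∃ v, C.IsRun x v ∧
    (v g = true ↔ F (Finset.univ.filter fun i => x i = true).card)

/-- Every gate computes a function of `c % m`, `min c T` and `min (f - c) T`, where `f` is the
number of wires entering it, and `c` the number of those that carry the value true. -/
def Modular (C : Circuit n ι G) (m T : ℕ) : Prop :=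
  ∀ g c d, c ≤ C.fanIn g → d ≤ C.fanIn g → c % m = d % m → min c T = min d T →
    min (C.fanIn g - c) T = min (C.fanIn g - d) T → (C.acc g c ↔ C.acc g d)

end Circuit

/-- The product of `m` and of the largest powers `p ^ i ≤ k` of the prime divisors `p` of `m`. -/
def period (m k : ℕ) : ℕ := m * ∏ p ∈ m.primeFactors, p ^ Nat.log p k

/-- For `T + 2 * k ≤ w ≤ n - T - 2 * k`, the truth of `F w` depends only on `w % period m k`. -/
def Regular (m n k T : ℕ) (F : ℕ → Prop) : Prop :=
  ∀ w, T + 2 * k ≤ w → w + period m k + T + 2 * k ≤ n → (F w ↔ F (w + period m k))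

end Pool.Agent.SymCirc
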