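import Pool.Agent.SymC.Stmts
import Pool.Agent.SymCirc.Defs

/-!
# From the circuits of `SymC` to the labelled circuits
-/

set_option autoImplicit false

namespace Pool.Agent.SymCirc

open Finset

variable {n : ℕ} {G : Type}

/-- The labelled circuit of a circuit without further inputs. -/
def conv (C : SymC.Circuit (Fin n ⊕ Empty) G) : Circuit n (Fin n) G where
  label := Sum.inl
  wires := fun g a => C.wires g (Sum.map Sum.inl id a)
  acc := C.acc
  level := C.level
  level_lt := fun g h hw => C.level_lt g h hw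

/-- The bijection of the nodes. -/
def nodeEquiv (n : ℕ) (G : Type) : Fin n ⊕ G ≃ (Fin n ⊕ Empty) ⊕ G :=
  Equiv.sumCongr (Equiv.sumEmpty (Fin n) Empty).symm (Equiv.refl G)

theorem nodeEquiv_apply (a : Fin n ⊕ G) : nodeEquiv n G a = Sum.map Sum.inl id a := by
  rcases a with a | a <;> rfl

theorem fanIn_conv [Fintype G] (C : SymC.Circuit (Fin n ⊕ Empty) G) (g : G) :
    (conv C).fanIn g = C.fanIn g := by
  unfold Circuit.fanIn SymC.Circuit.fanIn
  rw [← Equiv.sum_comp (nodeEquiv n G)]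
  apply Finset.sum_congr rfl
  intro a _
  rw [nodeEquiv_apply]
  rfl

theorem count_conv [Fintype G] (C : SymC.Circuit (Fin n ⊕ Empty) G) (x : Fin n → Bool)
    (z : Empty → Bool) (v : G → Bool) (g : G) :
    (conv C).count x v g = C.count (Sum.elim x z) v g := by
  unfold Circuit.count SymC.Circuit.count
  rw [← Equiv.sum_comp (nodeEquiv n G)]
  apply Finset.sum_congr rfl
  intro a _
  rw [nodeEquiv_apply]
  rcases a with a | a <;> rfl

theorem exists_conv [Fintype G] (C : SymC.Circuit (Fin n ⊕ Empty) G) {m T : ℕ} {F : ℕ → Prop}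
    {z : Empty → Bool} (h1 : SymC.Interchangeable C) (h2 : C.Modular m T)
    (h3 : SymC.Accepts C z F) :
    (conv C).label = Sum.inl ∧ (conv C).Modular m T ∧
      (∀ ρ, ∃ σ τ, (conv C).IsAut ρ σ τ ∧ τ C.out = C.out) ∧
      (∀ g, (conv C).level g = C.level g) ∧ (conv C).Computes C.out F := by
  refine ⟨rfl, ?_, ?_, fun g => rfl, ?_⟩
  · intro g c d hc hd
    rw [fanIn_conv] at hc hd ⊢
    exact h2 g c d hc hd
  · intro ρ
    obtain ⟨τ, hτ⟩ := h1 ρ
    obtain ⟨h4, h5, h6⟩ := hτ
    refine ⟨ρ, τ, ⟨fun i => rfl, fun g a => ?_, h4⟩, h6⟩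
    have h7 := h5 g (Sum.map Sum.inl id a)
    have h8 : Sum.map (Equiv.sumCongr ρ (1 : Equiv.Perm Empty)) τ (Sum.map Sum.inl id a) =
        Sum.map Sum.inl id (Sum.map ρ τ a) := by
      rcases a with a | a <;> rfl
    rw [h8] at h7
    exact h7
  · intro x
    obtain ⟨v, hv, hout⟩ := h3 x
    refine ⟨v, fun g => ?_, hout⟩
    rw [count_conv C x z]
    exact hv g

end Pool.Agent.SymCirc
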