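import Pool.Agent.SymCirc.Low
import Pool.Agent.SymCirc.Conv
import Pool.Agent.SymC.Thr
import Pool.Agent.SymC.Num
import Pool.Agent.SymC.Siz

/-!
# The size of symmetric circuits
-/

set_option autoImplicit false

namespace Pool.Agent.SymCirc

theorem FinA_main (hUp : SymC.St_Up) (m : ℕ) (hm : 2 ≤ m) : ∃ K : ℕ,
    ∀ (n k T : ℕ) (F : ℕ → Prop), 1 ≤ n → 2 ≤ k → 1 ≤ T →
    (Regular m n k T F → ∃ (G : Type) (_ : Fintype G) (C : Circuit n (Fin n) G) (g₀ : G),
      C.label = Sum.inl ∧ C.Modular m T ∧ (∀ g, C.level g < 5) ∧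
      (∀ ρ, ∃ σ τ, C.IsAut ρ σ τ ∧ τ g₀ = g₀) ∧
      Fintype.card G ≤ (n + k).choose k ^ K ∧ C.Computes g₀ F) ∧
    (¬ Regular m n k T F → K * k ≤ n → ∀ (ι G : Type) [Fintype ι] [Fintype G]
      (C : Circuit n ι G) (g₀ : G), C.Modular m T → C.Computes g₀ F →
      n.choose k * Nat.card {ρ : Equiv.Perm (Fin n) // C.IsSymmetry ρ} ≤
        Fintype.card G * n.factorial) ∧
    (∀ θ, (∀ w, F w ↔ θ ≤ w) →
      (n ≤ k ^ m.primeFactors.card → Regular m n k T F) ∧
      (n ≤ 4 * θ → 4 * θ ≤ 3 * n → K * (k ^ m.primeFactors.card + T) ≤ n →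
        ¬ Regular m n k T F)) := by
  obtain ⟨K₁, hK₁⟩ := SymC.thm_Siz m hm
  obtain ⟨K₂, hK₂⟩ := SymC.thm_Thr m hm
  refine ⟨K₁ + K₂ + 256, fun n k T F hn hk hT => ⟨fun hreg => ?_, fun hreg hkn => ?_,
    fun θ hF => ⟨fun h => ((hK₂ n k T θ F (by omega) hF).1 h), fun h1 h2 h3 => ?_⟩⟩⟩
  · -- replace `T` by `min T n`
    have hreg' : SymC.Regular m n k (min T n) F := by
      intro w hw1 hw2
      rcases le_total T n with h | h
      · rw [min_eq_left h] at hw1 hw2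
        exact hreg w hw1 hw2
      · rw [min_eq_right h] at hw1 hw2
        omega
    obtain ⟨G, hG, C, h1, h2, h3, h4, h5⟩ := hUp m n (m * k) (min T n) F (by omega)
      (by omega) (SymC.thm_Num m n k (min T n) F hm (by omega) hreg')
    obtain ⟨h6, h7, h8, h9, h10⟩ := exists_conv C h1 h2 h5
    refine ⟨G, hG, conv C, C.out, h6, ?_, h3, h8, ?_, h10⟩
    · intro g c d hc hd h11 h12 h13
      exact h7 g c d hc hd h11 (by omega) (by omega)
    · refine h4.trans ((hK₁ n k (min T n) hn (by omega) (min_le_right _ _)).trans ?_)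
      exact Nat.pow_le_pow_right (Nat.choose_pos (by omega)) (by omega)
  · intro ι G _ _ C g₀ hmod hacc
    by_contra hcon
    push Not at hcon
    apply hreg
    refine lower m n k T F hm hk ?_ ι G C g₀ hmod hacc hcon
    calc 256 * k ≤ (K₁ + K₂ + 256) * k := Nat.mul_le_mul_right _ (by omega)
      _ ≤ n := hkn
  · refine (hK₂ n k T θ F (by omega) hF).2 h1 h2 (le_trans ?_ h3)
    exact Nat.mul_le_mul_right _ (by omega)

end Pool.Agent.SymCirc
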