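import Pool.Agent.SymCirc.Stmts2

/-!
# The Razborov-Smolensky bound for circuits that read functions of degree `D`
-/

set_option autoImplicit false

namespace Pool.Agent.SymCirc

open Finset Pool.Agent.RS

/-- Razborov's approximation, inputs of degree `D`. -/
private theorem apx_circuit {p : ℕ} [Fact p.Prime] {U V : Type} [Fintype U] [DecidableEq U]
    [Fintype V] [DecidableEq V] {s : ℕ} (C : RS.Circuit V s) (inp : Finset U → V → Bool)
    {D : ℕ} (hin : ∀ v, (fun z => ind p (inp z v)) ∈ lowDeg (ZMod p) U D)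
    (ℓ : ℕ) (hℓ : 1 ≤ ℓ) :
    ∃ (P : Finset U → ZMod p) (E : Finset (Finset U)),
      P ∈ lowDeg (ZMod p) U (D * ((p - 1) * ℓ) ^ (C.level C.out + 1)) ∧
      E.card * p ^ ℓ ≤ s * 2 ^ Fintype.card U ∧
      ∀ z, z ∉ E → (C.Accepts p (inp z) → P z = 1) ∧ (¬ C.Accepts p (inp z) → P z = 0) := by
  classical
  choose val hval using fun z => C.exists_run p (inp z)
  choose G Bad hB hG hD using gate_approx (U := U) C inp val hval ℓ hℓ
  have ha : 1 ≤ (p - 1) * ℓ := by
    have := (Fact.out : p.Prime).two_le
    exact Nat.mul_pos (by omega) hℓ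
  have key : ∀ k : ℕ, ∃ P : Fin s → Finset U → ZMod p, ∀ g, C.level g < k →
      P g ∈ lowDeg (ZMod p) U (D * ((p - 1) * ℓ) ^ (C.level g + 1)) ∧
      ∀ z, (∀ h, z ∉ Bad h) → P g z = ind p (val z g) := by
    intro k
    induction k with
    | zero => exact ⟨fun _ => 0, fun g hg => absurd hg (Nat.not_lt_zero _)⟩
    | succ k ih =>
      obtain ⟨P, hP⟩ := ih
      refine ⟨fun g => if C.level g < k then P g else
        fun z => G g (Sum.elim (fun v => ind p (inp z v)) fun h => P h z), ?_⟩
      intro g hg
      by_cases h : C.level g < k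
      · simp only [if_pos h]
        exact hP g h
      · simp only [if_neg h]
        have hlev : ∀ h, C.gw g h ≠ 0 → C.level h < k := fun h' hh' => by
          have := C.level_lt g h' hh'
          omega
        constructor
        · have h1 := hD g (D * ((p - 1) * ℓ) ^ (C.level g))
            (Sum.elim (fun v z => ind p (inp z v)) P) (fun i hi => by
              cases i with
              | inl v =>
                refine lowDeg_mono ?_ (hin v)
                exact Nat.le_mul_of_pos_right _ (Nat.one_le_pow _ _ ha)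
              | inr h' =>
                have hh' : C.gw g h' ≠ 0 := hi
                refine lowDeg_mono (Nat.mul_le_mul_left _ (Nat.pow_le_pow_right ha ?_))
                  (hP h' (hlev h' hh')).1
                exact C.level_lt g h' hh')
          have h2 : (p - 1) * ℓ * (D * ((p - 1) * ℓ) ^ (C.level g)) =
              D * ((p - 1) * ℓ) ^ (C.level g + 1) := by
            rw [pow_succ]
            ring
          rw [h2] at h1
          have h3 : (fun z => G g (Sum.elim (fun v => ind p (inp z v)) fun h => P h z)) =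
              fun z => G g fun i => (Sum.elim (fun v z => ind p (inp z v)) P :
                V ⊕ Fin s → Finset U → ZMod p) i z := by
            funext z
            congr 1
            funext i
            cases i <;> rfl
          rw [h3]
          exact h1
        · intro z hz
          refine hG g z (hz g) _ fun i hi => ?_
          cases i with
          | inl v => rfl
          | inr h' => exact (hP h' (hlev h' hi)).2 z hz
  obtain ⟨P, hP⟩ := key (C.level C.out + 1)
  refine ⟨P C.out, univ.biUnion Bad, (hP C.out (Nat.lt_succ_self _)).1, ?_, ?_⟩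
  · calc (univ.biUnion Bad).card * p ^ ℓ ≤ (∑ g, (Bad g).card) * p ^ ℓ :=
        Nat.mul_le_mul_right _ Finset.card_biUnion_le
      _ = ∑ g, (Bad g).card * p ^ ℓ := Finset.sum_mul _ _ _
      _ ≤ ∑ _g : Fin s, 2 ^ Fintype.card U := Finset.sum_le_sum fun g _ => hB g
      _ = s * 2 ^ Fintype.card U := by simp
  · intro z hz
    have hz' : ∀ h, z ∉ Bad h := fun h hh => hz (mem_biUnion.mpr ⟨h, mem_univ h, hh⟩)
    have h1 := (hP C.out (Nat.lt_succ_self _)).2 z hz'
    have h2 := Circuit.accepts_iff (hval z)
    constructor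
    · intro h; rw [h1, h2.mp h]; rfl
    · intro h
      rw [h1]
      have : val z C.out ≠ true := fun h' => h (h2.mpr h')
      simp [ind, this]

theorem thm_Apx : St_Apx := by
  intro p _ U V _ _ _ _ s C inp D₀ _hD₀ hin M ℓ hU hℓ hacc hdeg
  classical
  obtain ⟨P, E, hP, hE, hPE⟩ := apx_circuit C inp hin ℓ hℓ
  set D := D₀ * ((p - 1) * ℓ) ^ (C.level C.out + 1) with hD
  have hM : 0 < M := by
    have : 0 < 2 * (D + 1) ^ 2 := by positivity
    omega
  have hDM : D < M := by nlinarith
  set S : Finset (Finset U) := Finset.powersetCard M univ with hSdef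
  have hS : ∀ z ∈ S, C.Accepts p (inp z) := fun z hz => by
    rw [hSdef, Finset.mem_powersetCard] at hz
    exact (hacc z).mpr hz.2.ge
  have hcard : (2 * M).choose M = S.card := by
    rw [hSdef, Finset.card_powersetCard, Finset.card_univ, hU]
  have h1 := one_sided (F := ZMod p) hDM (fun z => C.Accepts p (inp z))
    (fun z hz => (hacc z).mp hz) P hP E
    (fun z hz => by
      by_cases h : C.Accepts p (inp z)
      · rw [if_pos h]; exact (hPE z hz).1 h
      · rw [if_neg h]; exact (hPE z hz).2 h) S hS
  -- the size of the ball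
  have h2 : (2 * M).choose M ≤
      2 * ((univ : Finset (Finset U)).filter fun z => z.card ≤ M - 1 - D).card := by
    refine (choose_half M (D + 1) hdeg).trans (Nat.mul_le_mul_left _ ?_)
    have h3 : (2 * M).choose (M - (D + 1)) =
        (Finset.powersetCard (M - (D + 1)) (univ : Finset U)).card := by
      rw [Finset.card_powersetCard, Finset.card_univ, hU]
    rw [h3]
    refine Finset.card_le_card fun z hz => ?_
    rw [Finset.mem_powersetCard] at hz
    rw [mem_filter]
    exact ⟨mem_univ z, by rw [hz.2]; omega⟩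
  rw [hU] at h1 hE
  have h4 : (4 : ℕ) ^ M ≤ 2 * M * (2 * M).choose M := by
    have := Nat.four_pow_le_two_mul_self_mul_centralBinom M hM
    rwa [Nat.centralBinom] at this
  have h5 : (2 : ℕ) ^ (2 * M) = 4 ^ M := by rw [pow_mul]; norm_num
  rw [h5] at h1 hE
  set B := ((univ : Finset (Finset U)).filter fun z => z.card ≤ M - 1 - D).card with hB
  set c := (2 * M).choose M with hc
  -- combine
  have h6 : (4 ^ M * 4 ^ M) * p ^ ℓ ≤ (8 * M ^ 2 * s) * (4 ^ M * 4 ^ M) := by
    calc (4 ^ M * 4 ^ M) * p ^ ℓ ≤ ((2 * M * c) * (2 * M * c)) * p ^ ℓ :=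
          Nat.mul_le_mul_right _ (Nat.mul_le_mul h4 h4)
      _ = (4 * M ^ 2) * (c * c) * p ^ ℓ := by ring
      _ ≤ (4 * M ^ 2) * (S.card * (2 * B)) * p ^ ℓ :=
          Nat.mul_le_mul_right _ (Nat.mul_le_mul_left _ (Nat.mul_le_mul hcard.le h2))
      _ = (8 * M ^ 2) * (S.card * B) * p ^ ℓ := by ring
      _ ≤ (8 * M ^ 2) * (E.card * 4 ^ M) * p ^ ℓ :=
          Nat.mul_le_mul_right _ (Nat.mul_le_mul_left _ h1)
      _ = (8 * M ^ 2) * 4 ^ M * (E.card * p ^ ℓ) := by ring
      _ ≤ (8 * M ^ 2) * 4 ^ M * (s * 4 ^ M) := Nat.mul_le_mul_left _ hE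
      _ = (8 * M ^ 2 * s) * (4 ^ M * 4 ^ M) := by ring
  rw [mul_comm] at h6
  exact Nat.le_of_mul_le_mul_right h6 (by positivity)

end Pool.Agent.SymCirc
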