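import Pool.Agent.SymCirc.Stmts3

/-!
# Averaging over the permutations of the variables
-/

set_option autoImplicit false

namespace Pool.Agent.SymCirc

open Finset

/-- the vectors of weight `w` -/
private def Avg_W (n w : ℕ) : Finset (Fin n → Bool) :=
  univ.filter fun x => (univ.filter fun i => x i = true).card = w

private theorem Avg_card (n w : ℕ) : (Avg_W n w).card = n.choose w := by
  have h : (Avg_W n w).card = (powersetCard w (univ : Finset (Fin n))).card := by
    refine Finset.card_nbij' (fun x => univ.filter fun i => x i = true)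
      (fun s i => decide (i ∈ s)) ?_ ?_ ?_ ?_
    · intro x hx
      have hx' : (univ.filter fun i => x i = true).card = w := (mem_filter.1 hx).2
      exact mem_powersetCard.2 ⟨subset_univ _, hx'⟩
    · intro s hs
      have hs' := (mem_powersetCard.1 hs).2
      refine mem_filter.2 ⟨mem_univ _, ?_⟩
      rw [← hs']
      congr 1
      ext i
      simp
    · intro x _
      funext i
      simp
    · intro s _
      ext i
      simp
  rw [h, card_powersetCard, card_univ, Fintype.card_fin]

private theorem Avg_perm {n w : ℕ} {a b : Fin n → Bool} (ha : a ∈ Avg_W n w)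
    (hb : b ∈ Avg_W n w) : ∃ σ : Equiv.Perm (Fin n), a ∘ σ = b := by
  classical
  have hc : Fintype.card {i // b i = true} = Fintype.card {i // a i = true} := by
    rw [Fintype.card_subtype, Fintype.card_subtype, (mem_filter.1 ha).2, (mem_filter.1 hb).2]
  let e : {i // b i = true} ≃ {i // a i = true} := Fintype.equivOfCardEq hc
  refine ⟨e.extendSubtype, funext fun i => ?_⟩
  show a (e.extendSubtype i) = b i
  by_cases h : b i = true
  · rw [h]
    exact e.extendSubtype_mem i h
  · have h' := e.extendSubtype_not_mem i h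
    rw [Bool.not_eq_true] at h h'
    rw [h, h']

private theorem Avg_fib {n w : ℕ} (x : Fin n → Bool) {a b : Fin n → Bool} (ha : a ∈ Avg_W n w)
    (hb : b ∈ Avg_W n w) :
    (univ.filter fun π : Equiv.Perm (Fin n) => x ∘ π = a).card =
      (univ.filter fun π : Equiv.Perm (Fin n) => x ∘ π = b).card := by
  obtain ⟨σ, hσ⟩ := Avg_perm ha hb
  refine Finset.card_nbij' (fun π => π * σ) (fun π => π * σ⁻¹) ?_ ?_ ?_ ?_
  · intro π hπ
    refine mem_filter.2 ⟨mem_univ _, ?_⟩
    have h := (mem_filter.1 hπ).2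
    rw [← hσ, ← h]
    rfl
  · intro π hπ
    refine mem_filter.2 ⟨mem_univ _, ?_⟩
    have h := (mem_filter.1 hπ).2
    funext i
    have h2 : x (π (σ⁻¹ i)) = b (σ⁻¹ i) := congrFun h (σ⁻¹ i)
    have h3 : a (σ (σ⁻¹ i)) = b (σ⁻¹ i) := congrFun hσ (σ⁻¹ i)
    have h4 : σ (σ⁻¹ i) = i := by simp
    rw [h4] at h3
    rw [h3, ← h2]
    rfl
  · intro π _
    simp
  · intro π _
    simp

private theorem Avg_weight {n w : ℕ} {x : Fin n → Bool} (hx : x ∈ Avg_W n w)
    (π : Equiv.Perm (Fin n)) : x ∘ π ∈ Avg_W n w := by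
  refine mem_filter.2 ⟨mem_univ _, ?_⟩
  rw [← (mem_filter.1 hx).2]
  refine Finset.card_nbij' (fun i => π i) (fun i => π⁻¹ i) ?_ ?_ ?_ ?_
  · intro i hi
    exact mem_filter.2 ⟨mem_univ _, (mem_filter.1 hi).2⟩
  · intro i hi
    refine mem_filter.2 ⟨mem_univ _, ?_⟩
    have h := (mem_filter.1 hi).2
    simpa using h
  · intro i _
    simp
  · intro i _
    simp

/-- for one vector -/
private theorem Avg_one {n w r : ℕ} {x : Fin n → Bool} (hx : x ∈ Avg_W n w)
    {A : Finset (Fin n → Bool)} (hA : A ⊆ Avg_W n w) (hr : n.choose w ≤ r * A.card) :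
    Fintype.card (Equiv.Perm (Fin n)) ≤
      r * (univ.filter fun π : Equiv.Perm (Fin n) => x ∘ π ∈ A).card := by
  set c := (univ.filter fun π : Equiv.Perm (Fin n) => x ∘ π = x).card with hc
  have h1 : Fintype.card (Equiv.Perm (Fin n)) = (Avg_W n w).card * c := by
    rw [← card_univ, card_eq_sum_card_fiberwise (f := fun π : Equiv.Perm (Fin n) => x ∘ π)
      (t := Avg_W n w) (fun π _ => Avg_weight hx π)]
    rw [Finset.sum_congr rfl (fun b hb => Avg_fib x hb hx), sum_const, smul_eq_mul]
  have h2 : (univ.filter fun π : Equiv.Perm (Fin n) => x ∘ π ∈ A).card = A.card * c := by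
    have h0 := card_eq_sum_card_fiberwise
      (s := univ.filter fun π : Equiv.Perm (Fin n) => x ∘ π ∈ A)
      (f := fun π : Equiv.Perm (Fin n) => x ∘ π) (t := A) (fun π hπ => (mem_filter.1 hπ).2)
    rw [h0]
    have h3 : ∀ b ∈ A, ((univ.filter fun π : Equiv.Perm (Fin n) => x ∘ π ∈ A).filter
        fun π : Equiv.Perm (Fin n) => x ∘ π = b).card = c := by
      intro b hb
      rw [hc, ← Avg_fib x (hA hb) hx, filter_filter]
      congr 1
      refine filter_congr fun π _ => ?_
      constructor
      · exact fun h => h.2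
      · intro h
        exact ⟨by rw [h]; exact hb, h⟩
    rw [Finset.sum_congr rfl h3, sum_const, smul_eq_mul]
  rw [h1, h2, Avg_card, ← mul_assoc]
  exact Nat.mul_le_mul_right _ hr

theorem thm_Avg : St_Avg := by
  classical
  intro n r Z _ f A w hf hA hr
  have hf' : ∀ z, f z ∈ Avg_W n w := fun z => mem_filter.2 ⟨mem_univ _, hf z⟩
  have hA' : A ⊆ Avg_W n w := fun x hx => mem_filter.2 ⟨mem_univ _, hA x hx⟩
  by_contra hcon
  push Not at hcon
  have h1 : Fintype.card Z * Fintype.card (Equiv.Perm (Fin n)) ≤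
      ∑ z : Z, r * (univ.filter fun π : Equiv.Perm (Fin n) => f z ∘ π ∈ A).card := by
    rw [← smul_eq_mul, ← card_univ (α := Z), ← sum_const]
    exact sum_le_sum fun z _ => Avg_one (hf' z) hA' hr
  have h2 : ∑ z : Z, (univ.filter fun π : Equiv.Perm (Fin n) => f z ∘ π ∈ A).card =
      ∑ π : Equiv.Perm (Fin n), (univ.filter fun z : Z => f z ∘ π ∈ A).card := by
    simp only [card_filter]
    exact sum_comm
  have h3 : ∑ π : Equiv.Perm (Fin n), r * (univ.filter fun z : Z => f z ∘ π ∈ A).card <
      ∑ _π : Equiv.Perm (Fin n), Fintype.card Z :=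
    sum_lt_sum_of_nonempty ⟨1, mem_univ _⟩ fun π _ => hcon π
  rw [← mul_sum, h2, mul_sum] at h1
  rw [sum_const, smul_eq_mul, card_univ, mul_comm] at h3
  omega

end Pool.Agent.SymCirc
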