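import Pool.Agent.SymCirc.Low

/-!
# Restriction to inputs that are constant on blocks
-/

set_option autoImplicit false

namespace Pool.Agent.SymCirc

open Equiv Equiv.Perm Finset Pool.Agent.Helper18 Pool.Agent.SymC

variable {n : ℕ} {ι G : Type}

/-- the `j`-th block -/
def Blk_set (n P j : ℕ) : Finset (Fin n) :=
  Finset.univ.filter fun i => j * P ≤ (i : ℕ) ∧ (i : ℕ) < (j + 1) * P

/-- an interval -/
def Blk_int (n a b : ℕ) : Finset (Fin n) :=
  Finset.univ.filter fun i => a ≤ (i : ℕ) ∧ (i : ℕ) < b

theorem Blk_mem_set {n P j : ℕ} {i : Fin n} :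
    i ∈ Blk_set n P j ↔ j * P ≤ (i : ℕ) ∧ (i : ℕ) < (j + 1) * P := by
  simp [Blk_set]

theorem Blk_mem_int {n a b : ℕ} {i : Fin n} : i ∈ Blk_int n a b ↔ a ≤ (i : ℕ) ∧ (i : ℕ) < b := by
  simp [Blk_int]

theorem Blk_card_int {n a b : ℕ} (hq : b ≤ n) : (Blk_int n a b).card = b - a := by
  have h1 : (Blk_int n a b).map Fin.valEmbedding = Finset.Ico a b := by
    ext x
    simp only [Finset.mem_map, Blk_mem_int, Fin.valEmbedding_apply, Finset.mem_Ico]
    constructor
    · rintro ⟨i, hi, rfl⟩; exact hi
    · intro hx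
      exact ⟨⟨x, by omega⟩, hx, rfl⟩
  rw [← Finset.card_map Fin.valEmbedding, h1, Nat.card_Ico]

theorem Blk_card_set {n P j N : ℕ} (hN : N * P ≤ n) (hj : j < N) : (Blk_set n P j).card = P := by
  have h1 : Blk_set n P j = Blk_int n (j * P) ((j + 1) * P) := rfl
  have h2 : (j + 1) * P ≤ N * P := Nat.mul_le_mul_right _ hj
  rw [h1, Blk_card_int (by omega)]
  rw [Nat.succ_mul]
  omega

theorem Blk_unique {n P j j' : ℕ} {i : Fin n} (h : i ∈ Blk_set n P j) (h' : i ∈ Blk_set n P j') :
    j = j' := by
  rw [Blk_mem_set] at h h'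
  have hP : 0 < P := by
    rcases Nat.eq_zero_or_pos P with h0 | h0
    · subst h0
      omega
    · exact h0
  have h1 : j * P < (j' + 1) * P := by omega
  have h2 : j' * P < (j + 1) * P := by omega
  have h3 := Nat.lt_of_mul_lt_mul_right h1
  have h4 := Nat.lt_of_mul_lt_mul_right h2
  omega

theorem Blk_disj {n P j j' : ℕ} (h : j ≠ j') : Disjoint (Blk_set n P j) (Blk_set n P j') := by
  rw [Finset.disjoint_left]
  intro i hi hi'
  exact h (Blk_unique hi hi')

theorem Blk_lt {n P j N : ℕ} {i : Fin n} (hj : j < N) (h : i ∈ Blk_set n P j) :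
    (i : ℕ) < N * P := by
  rw [Blk_mem_set] at h
  have h2 : (j + 1) * P ≤ N * P := Nat.mul_le_mul_right _ hj
  omega

/-- the ones of the input belonging to a set `z` of blocks -/
def Blk_ones (n P N q : ℕ) (z : Finset (Fin N)) : Finset (Fin n) :=
  (z.biUnion fun j => Blk_set n P j) ∪ Blk_int n (N * P) (N * P + q)

theorem Blk_mem_ones {n P N q : ℕ} {z : Finset (Fin N)} {i : Fin n} :
    i ∈ Blk_ones n P N q z ↔ (∃ j ∈ z, i ∈ Blk_set n P j) ∨ i ∈ Blk_int n (N * P) (N * P + q) := by
  simp [Blk_ones]

theorem Blk_card_ones {n P N q : ℕ} (h : N * P + q ≤ n) (z : Finset (Fin N)) :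
    (Blk_ones n P N q z).card = P * z.card + q := by
  rw [Blk_ones, Finset.card_union_of_disjoint, Finset.card_biUnion, Blk_card_int h]
  · rw [Finset.sum_congr rfl (fun j _ => Blk_card_set (N := N) (by omega) j.2), Finset.sum_const,
      smul_eq_mul, mul_comm]
    omega
  · intro j _ j' _ hjj
    exact Blk_disj fun h => hjj (Fin.ext h)
  · rw [Finset.disjoint_left]
    intro i hi hi'
    rw [Finset.mem_biUnion] at hi
    obtain ⟨j, -, hj⟩ := hi
    have h1 := Blk_lt j.2 hj
    rw [Blk_mem_int] at hi'
    omega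

/-- the input belonging to a set `z` of blocks -/
def Blk_inp (n P N q : ℕ) (z : Finset (Fin N)) (i : Fin n) : Bool :=
  decide (i ∈ Blk_ones n P N q z)

theorem Blk_inp_card {n P N q : ℕ} (h : N * P + q ≤ n) (z : Finset (Fin N)) :
    (Finset.univ.filter fun i => Blk_inp n P N q z i = true).card = P * z.card + q := by
  rw [← Blk_card_ones h z]
  congr 1
  ext i
  simp [Blk_inp]

theorem Blk_inp_var {n P N q : ℕ} (i : Fin n) :
    ∃ A : Finset (Fin N), A.card ≤ 1 ∧ ∀ z z' : Finset (Fin N), z ∩ A = z' ∩ A →
      Blk_inp n P N q z i = Blk_inp n P N q z' i := by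
  classical
  refine ⟨Finset.univ.filter fun j : Fin N => i ∈ Blk_set n P j, ?_, ?_⟩
  · rw [Finset.card_le_one]
    intro a ha b hb
    rw [Finset.mem_filter] at ha hb
    exact Fin.ext (Blk_unique ha.2 hb.2)
  · intro z z' h
    have h1 : ∀ z z' : Finset (Fin N), (z ∩ Finset.univ.filter fun j : Fin N => i ∈ Blk_set n P j) =
        (z' ∩ Finset.univ.filter fun j : Fin N => i ∈ Blk_set n P j) →
        i ∈ Blk_ones n P N q z → i ∈ Blk_ones n P N q z' := by
      intro z z' h hi
      rw [Blk_mem_ones] at hi ⊢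
      rcases hi with ⟨j, hj, hi⟩ | hi
      · left
        have h2 : j ∈ z ∩ Finset.univ.filter fun j : Fin N => i ∈ Blk_set n P j := by
          simp [hj, hi]
        rw [h] at h2
        exact ⟨j, (Finset.mem_inter.mp h2).1, hi⟩
      · exact Or.inr hi
    rw [Blk_inp, Blk_inp, decide_eq_decide]
    exact ⟨h1 z z' h, h1 z' z h.symm⟩

/-- On block inputs every gate depends on few blocks. -/
theorem Blk_gate [Fintype ι] [Fintype G] {m k T : ℕ} (hm : 2 ≤ m) (hk : 2 ≤ k)
    (hb : 256 * k ≤ n) (C : Circuit n ι G)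
    (hs : Fintype.card G * n.factorial <
      n.choose k * Nat.card {ρ : Equiv.Perm (Fin n) // C.IsSymmetry ρ})
    (hmod : C.Modular m T) (val : (Fin n → Bool) → G → Bool)
    (hval : ∀ u, C.IsRun u (val u)) {N q : ℕ} (hq : T + 2 * k ≤ q)
    (hn : T + 2 * k + (N * period m k + q) ≤ n) (g : G) :
    ∃ A : Finset (Fin N), A.card ≤ k ∧ ∀ z z' : Finset (Fin N), z ∩ A = z' ∩ A →
      val (Blk_inp n (period m k) N q z) g = val (Blk_inp n (period m k) N q z') g := by
  classical
  set P := period m k with hP
  have hPk : k + 1 ≤ P := Pool.Agent.Helper18.lt_period hm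
  let A : Finset (Fin N) := Finset.univ.filter fun j => ¬ Disjoint (gateSupp C g) (Blk_set n P j)
  have hA : A.card ≤ k := by
    obtain ⟨i₀, h1, -⟩ := gate_cls (by omega) hb hs g
    have h2 : A ⊆ (gateSupp C g).biUnion fun i =>
        Finset.univ.filter fun j : Fin N => i ∈ Blk_set n P j := by
      intro j hj
      simp only [A, Finset.mem_filter, Finset.mem_univ, true_and,
        Finset.not_disjoint_iff] at hj
      obtain ⟨i, hi, hij⟩ := hj
      rw [Finset.mem_biUnion]
      exact ⟨i, hi, by simp [hij]⟩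
    have h3 := (Finset.card_le_card h2).trans (Finset.card_biUnion_le_card_mul _ _ 1 (by
      intro i _
      rw [Finset.card_le_one]
      intro a ha b hb
      rw [Finset.mem_filter] at ha hb
      exact Fin.ext (Blk_unique ha.2 hb.2)))
    omega
  -- switching on one block outside `A`
  have hstep : ∀ (z : Finset (Fin N)) (j : Fin N), j ∉ A → j ∉ z →
      val (Blk_inp n P N q z) g = val (Blk_inp n P N q (insert j z)) g := by
    intro z j hjA hjz
    have hBcard : (Blk_set n P j).card = P := Blk_card_set (N := N) (by omega) j.2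
    have hdis : Disjoint (gateSupp C g) (Blk_set n P j) := by
      by_contra h
      exact hjA (by simp only [A, Finset.mem_filter, Finset.mem_univ, true_and]; exact h)
    refine output_eq (C := C) hk hb hs hmod val hval (Blk_set n P j) (by omega)
      (by rw [hBcard]; exact fun j hj hjk => Pool.Agent.Helper18.dvd_choose_period hm hj hjk)
      _ _ ?_ ?_ ?_ ?_ ?_ g hdis
    · intro i hi
      rw [Blk_inp, decide_eq_false_iff_not, Blk_mem_ones]
      rintro (⟨j', hj', hi'⟩ | hi')
      · exact hjz ((Fin.ext (Blk_unique hi hi')) ▸ hj')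
      · have h1 := Blk_lt j.2 hi
        rw [Blk_mem_int] at hi'
        omega
    · intro i hi
      rw [Blk_inp, decide_eq_true_eq, Blk_mem_ones]
      exact Or.inl ⟨j, Finset.mem_insert_self _ _, hi⟩
    · intro i hi
      rw [Blk_inp, Blk_inp, decide_eq_decide, Blk_mem_ones, Blk_mem_ones]
      constructor
      · rintro (⟨j', hj', hi'⟩ | hi')
        · exact Or.inl ⟨j', Finset.mem_insert_of_mem hj', hi'⟩
        · exact Or.inr hi'
      · rintro (⟨j', hj', hi'⟩ | hi')
        · rw [Finset.mem_insert] at hj'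
          rcases hj' with rfl | hj'
          · exact absurd hi' hi
          · exact Or.inl ⟨j', hj', hi'⟩
        · exact Or.inr hi'
    · -- many zeros
      have h1 : Blk_int n (N * P + q) n ⊆ Finset.univ.filter fun i =>
          i ∉ Blk_set n P j ∧ Blk_inp n P N q z i = false := by
        intro i hi
        rw [Blk_mem_int] at hi
        rw [Finset.mem_filter]
        refine ⟨Finset.mem_univ _, ?_, ?_⟩
        · intro h
          have := Blk_lt j.2 h
          omega
        · rw [Blk_inp, decide_eq_false_iff_not, Blk_mem_ones]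
          rintro (⟨j', hj', hi'⟩ | hi')
          · have := Blk_lt j'.2 hi'
            omega
          · rw [Blk_mem_int] at hi'
            omega
      have h2 := Finset.card_le_card h1
      rw [Blk_card_int le_rfl] at h2
      omega
    · -- many ones
      have h1 : Blk_int n (N * P) (N * P + q) ⊆ Finset.univ.filter fun i =>
          i ∉ Blk_set n P j ∧ Blk_inp n P N q (insert j z) i = true := by
        intro i hi
        rw [Finset.mem_filter]
        refine ⟨Finset.mem_univ _, ?_, ?_⟩
        · intro h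
          have := Blk_lt j.2 h
          rw [Blk_mem_int] at hi
          omega
        · rw [Blk_inp, decide_eq_true_eq, Blk_mem_ones]
          exact Or.inr hi
      have h2 := Finset.card_le_card h1
      rw [Blk_card_int (by omega)] at h2
      omega
  -- hence switching on any set of blocks outside `A`
  have hset : ∀ (D : Finset (Fin N)), (∀ j ∈ D, j ∉ A) → ∀ z : Finset (Fin N),
      val (Blk_inp n P N q z) g = val (Blk_inp n P N q (z ∪ D)) g := by
    intro D
    induction D using Finset.induction_on with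
    | empty =>
      intro _ z
      rw [Finset.union_empty]
    | insert j D hj ih =>
      intro hD z
      rw [ih (fun i hi => hD i (Finset.mem_insert_of_mem hi)) z]
      by_cases hjz : j ∈ z ∪ D
      · have : z ∪ insert j D = z ∪ D := by
          rw [Finset.union_insert, Finset.insert_eq_of_mem hjz]
        rw [this]
      · rw [hstep (z ∪ D) j (hD j (Finset.mem_insert_self _ _)) hjz, Finset.union_insert]
  have hred : ∀ z : Finset (Fin N),
      val (Blk_inp n P N q z) g = val (Blk_inp n P N q (z ∩ A)) g := by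
    intro z
    have h1 := hset (z \ A) (fun j hj => (Finset.mem_sdiff.mp hj).2) (z ∩ A)
    rw [h1]
    congr 2
    ext j
    simp only [Finset.mem_union, Finset.mem_inter, Finset.mem_sdiff]
    tauto
  refine ⟨A, hA, fun z z' h => ?_⟩
  rw [hred z, hred z', h]

end Pool.Agent.SymCirc
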