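import Pool.Agent.SymCirc.Stmts3

/-!
# Substitution of functions of few variables into a circuit
-/

set_option autoImplicit false

namespace Pool.Agent.SymCirc

open Finset Pool.Agent.RS

/-- The gates of the new circuit. -/
abbrev CmpG (V : Type) (N k s : ℕ) : Type :=
  Fin s ⊕ (Fin N ⊕ (V × Option (Fin k → Bool)))

section

open Classical in
/-- Kinds. -/
private noncomputable def cmpKind {V : Type} {N k s : ℕ} (C : RS.Circuit V s) :
    CmpG V N k s → Kind
  | Sum.inl g => C.kind g
  | Sum.inr (Sum.inl _) => Kind.nor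
  | Sum.inr (Sum.inr (_, some _)) => Kind.and
  | Sum.inr (Sum.inr (_, none)) => Kind.or

/-- Levels. -/
private def cmpLevel {V : Type} {N k s : ℕ} (C : RS.Circuit V s) : CmpG V N k s → ℕ
  | Sum.inl g => C.level g + 3
  | Sum.inr (Sum.inl _) => 0
  | Sum.inr (Sum.inr (_, some _)) => 1
  | Sum.inr (Sum.inr (_, none)) => 2

/-- Wires from the variables. -/
private def cmpVw {V : Type} {N k s : ℕ} (e : V → Fin k → Fin N) : CmpG V N k s → Fin N → ℕ
  | Sum.inl _, _ => 0
  | Sum.inr (Sum.inl j), j' => if j' = j then 1 else 0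
  | Sum.inr (Sum.inr (v, some b)), j => ∑ i, if e v i = j ∧ b i = true then 1 else 0
  | Sum.inr (Sum.inr (_, none)), _ => 0

open Classical in
/-- Wires from the gates. -/
private noncomputable def cmpGw {V : Type} {N k s : ℕ} (e : V → Fin k → Fin N)
    (φ : V → (Fin k → Bool) → Bool) (C : RS.Circuit V s) : CmpG V N k s → CmpG V N k s → ℕ
  | Sum.inl g, Sum.inl h => C.gw g h
  | Sum.inl _, Sum.inr (Sum.inl _) => 0
  | Sum.inl _, Sum.inr (Sum.inr (_, some _)) => 0
  | Sum.inl g, Sum.inr (Sum.inr (v, none)) => C.vw g v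
  | Sum.inr (Sum.inl _), _ => 0
  | Sum.inr (Sum.inr (_, some _)), Sum.inl _ => 0
  | Sum.inr (Sum.inr (v, some b)), Sum.inr (Sum.inl j) =>
      ∑ i, if e v i = j ∧ b i = false then 1 else 0
  | Sum.inr (Sum.inr (_, some _)), Sum.inr (Sum.inr _) => 0
  | Sum.inr (Sum.inr (_, none)), Sum.inl _ => 0
  | Sum.inr (Sum.inr (_, none)), Sum.inr (Sum.inl _) => 0
  | Sum.inr (Sum.inr (v, none)), Sum.inr (Sum.inr (v', some b)) =>
      if v' = v ∧ φ v b = true then 1 else 0
  | Sum.inr (Sum.inr (_, none)), Sum.inr (Sum.inr (_, none)) => 0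

private lemma cmp_level_lt {V : Type} {N k s : ℕ} (e : V → Fin k → Fin N)
    (φ : V → (Fin k → Bool) → Bool) (C : RS.Circuit V s) (g h : CmpG V N k s)
    (hw : cmpGw e φ C g h ≠ 0) : cmpLevel C h < cmpLevel C g := by
  rcases g with g | j | ⟨v, _ | b⟩ <;> rcases h with h | j' | ⟨v', _ | b'⟩ <;>
    simp only [cmpGw, cmpLevel, ne_eq, not_true_eq_false] at hw ⊢
  · have := C.level_lt g h hw
    omega
  all_goals omega

/-- The values of the gates. -/
private noncomputable def cmpVal {V : Type} {N k s : ℕ} (e : V → Fin k → Fin N)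
    (φ : V → (Fin k → Bool) → Bool) (u : Fin N → Bool) (val : Fin s → Bool) :
    CmpG V N k s → Bool
  | Sum.inl g => val g
  | Sum.inr (Sum.inl j) => !u j
  | Sum.inr (Sum.inr (v, some b)) => decide ((fun i => u (e v i)) = b)
  | Sum.inr (Sum.inr (v, none)) => φ v (fun i => u (e v i))

/-- The number `x` if the bit is true, otherwise `0`. -/
private def cmpInd (b : Bool) (x : ℕ) : ℕ := bif b then x else 0

private lemma cmpInd_eq (b : Bool) (x : ℕ) : (if b = true then x else 0) = cmpInd b x := by
  cases b <;> rfl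

private lemma cmpInd_zero (b : Bool) : cmpInd b 0 = 0 := by
  cases b <;> rfl

/-- The number of the true inputs. -/
private noncomputable def cmpT {V : Type} [Fintype V] {N k s : ℕ} (e : V → Fin k → Fin N)
    (φ : V → (Fin k → Bool) → Bool) (C : RS.Circuit V s) (u : Fin N → Bool)
    (val : Fin s → Bool) (g : CmpG V N k s) : ℕ :=
  (∑ j, cmpInd (u j) (cmpVw e g j)) + ∑ h, cmpInd (cmpVal e φ u val h) (cmpGw e φ C g h)

/-- The number of the inputs. -/
private noncomputable def cmpI {V : Type} [Fintype V] {N k s : ℕ} (e : V → Fin k → Fin N)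
    (φ : V → (Fin k → Bool) → Bool) (C : RS.Circuit V s) (g : CmpG V N k s) : ℕ :=
  (∑ j, cmpVw e g j) + ∑ h, cmpGw e φ C g h

private lemma cmpT_old {V : Type} [Fintype V] {N k s : ℕ} (e : V → Fin k → Fin N)
    (φ : V → (Fin k → Bool) → Bool) (C : RS.Circuit V s) (u : Fin N → Bool)
    (val : Fin s → Bool) (g : Fin s) :
    cmpT e φ C u val (Sum.inl g) = C.trueInputs (fun v => φ v (fun i => u (e v i))) val g := by
  unfold cmpT Circuit.trueInputs
  simp only [Fintype.sum_sum_type, Fintype.sum_prod_type, Fintype.sum_option, cmpVw, cmpGw,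
    cmpVal, cmpInd_zero, cmpInd_eq, Finset.sum_const_zero, zero_add, add_zero]
  exact add_comm _ _

private lemma cmpI_old {V : Type} [Fintype V] {N k s : ℕ} (e : V → Fin k → Fin N)
    (φ : V → (Fin k → Bool) → Bool) (C : RS.Circuit V s) (g : Fin s) :
    cmpI e φ C (Sum.inl g) = C.inputs g := by
  unfold cmpI Circuit.inputs
  simp only [Fintype.sum_sum_type, Fintype.sum_prod_type, Fintype.sum_option, cmpVw, cmpGw,
    Finset.sum_const_zero, zero_add, add_zero]
  exact add_comm _ _

private lemma cmpT_not {V : Type} [Fintype V] {N k s : ℕ} (e : V → Fin k → Fin N)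
    (φ : V → (Fin k → Bool) → Bool) (C : RS.Circuit V s) (u : Fin N → Bool)
    (val : Fin s → Bool) (j : Fin N) :
    cmpT e φ C u val (Sum.inr (Sum.inl j)) = if u j = true then 1 else 0 := by
  unfold cmpT
  simp only [cmpVw, cmpGw, cmpInd_zero, Finset.sum_const_zero, add_zero]
  rw [Finset.sum_eq_single j]
  · rw [← cmpInd_eq]
    simp
  · intro j' _ hj
    rw [if_neg hj, cmpInd_zero]
  · intro h
    exact absurd (Finset.mem_univ j) h

private lemma cmpT_and {V : Type} [Fintype V] {N k s : ℕ} (e : V → Fin k → Fin N)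
    (φ : V → (Fin k → Bool) → Bool) (C : RS.Circuit V s) (u : Fin N → Bool)
    (val : Fin s → Bool) (v : V) (b : Fin k → Bool) :
    cmpT e φ C u val (Sum.inr (Sum.inr (v, some b))) =
      (Finset.univ.filter fun i : Fin k => u (e v i) = b i).card := by
  unfold cmpT
  simp only [Fintype.sum_sum_type, cmpVw, cmpGw, cmpVal, cmpInd_zero, Finset.sum_const_zero,
    zero_add, add_zero]
  have h1 : ∀ j : Fin N, cmpInd (u j) (∑ i, (if e v i = j ∧ b i = true then 1 else 0)) =
      ∑ i : Fin k, if e v i = j then (if u (e v i) = true ∧ b i = true then 1 else 0)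
        else 0 := by
    intro j
    cases hj : u j
    · symm
      refine Finset.sum_eq_zero fun i _ => ?_
      by_cases hi : e v i = j
      · simp [hi, hj]
      · simp [hi]
    · show (∑ i, (if e v i = j ∧ b i = true then 1 else 0)) = _
      refine Finset.sum_congr rfl fun i _ => ?_
      by_cases hi : e v i = j
      · simp [hi, hj]
      · simp [hi]
  have h2 : ∀ j : Fin N, cmpInd (!u j) (∑ i, (if e v i = j ∧ b i = false then 1 else 0)) =
      ∑ i : Fin k, if e v i = j then (if u (e v i) = false ∧ b i = false then 1 else 0)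
        else 0 := by
    intro j
    cases hj : u j
    · show (∑ i, (if e v i = j ∧ b i = false then 1 else 0)) = _
      refine Finset.sum_congr rfl fun i _ => ?_
      by_cases hi : e v i = j
      · simp [hi, hj]
      · simp [hi]
    · symm
      refine Finset.sum_eq_zero fun i _ => ?_
      by_cases hi : e v i = j
      · simp [hi, hj]
      · simp [hi]
  rw [Finset.sum_congr rfl fun j _ => h1 j, Finset.sum_congr rfl fun j _ => h2 j,
    Finset.sum_comm, Finset.sum_comm (s := (Finset.univ : Finset (Fin N))), 
    Finset.card_filter, ← Finset.sum_add_distrib]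
  refine Finset.sum_congr rfl fun i _ => ?_
  rw [Finset.sum_ite_eq, Finset.sum_ite_eq]
  cases hu : u (e v i) <;> cases hb : b i <;> simp

private lemma cmpI_and {V : Type} [Fintype V] {N k s : ℕ} (e : V → Fin k → Fin N)
    (φ : V → (Fin k → Bool) → Bool) (C : RS.Circuit V s) (v : V) (b : Fin k → Bool) :
    cmpI (s := s) e φ C (Sum.inr (Sum.inr (v, some b))) = k := by
  unfold cmpI
  simp only [Fintype.sum_sum_type, cmpVw, cmpGw, Finset.sum_const_zero, zero_add, add_zero]
  rw [Finset.sum_comm, Finset.sum_comm (s := (Finset.univ : Finset (Fin N))),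
    ← Finset.sum_add_distrib]
  have : ∀ i : Fin k, ((∑ j : Fin N, if e v i = j ∧ b i = true then 1 else 0) +
      ∑ j : Fin N, if e v i = j ∧ b i = false then 1 else 0) = 1 := by
    intro i
    cases hb : b i <;> simp
  rw [Finset.sum_congr rfl fun i _ => this i]
  simp

private lemma cmpT_or {V : Type} [Fintype V] {N k s : ℕ} (e : V → Fin k → Fin N)
    (φ : V → (Fin k → Bool) → Bool) (C : RS.Circuit V s) (u : Fin N → Bool)
    (val : Fin s → Bool) (v : V) :
    cmpT e φ C u val (Sum.inr (Sum.inr (v, none))) =
      if φ v (fun i => u (e v i)) = true then 1 else 0 := by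
  classical
  unfold cmpT
  simp only [Fintype.sum_sum_type, Fintype.sum_prod_type, Fintype.sum_option, cmpVw, cmpGw,
    cmpVal, cmpInd_zero, Finset.sum_const_zero, zero_add]
  rw [Finset.sum_eq_single v]
  · rw [Finset.sum_eq_single (fun i => u (e v i))]
    · rw [decide_eq_true rfl]
      show (if v = v ∧ φ v (fun i => u (e v i)) = true then 1 else 0) = _
      simp
    · intro b _ hb
      rw [decide_eq_false fun h => hb h.symm]
      rfl
    · intro h
      exact absurd (Finset.mem_univ _) h
  · intro v' _ hv
    refine Finset.sum_eq_zero fun b _ => ?_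
    rw [if_neg fun h => hv h.1, cmpInd_zero]
  · intro h
    exact absurd (Finset.mem_univ v) h

end

theorem thm_Cmp : St_Cmp := by
  classical
  intro p V _ N k s e φ C
  have hcard : Fintype.card (CmpG V N k s) = s + (N + Fintype.card V * (2 ^ k + 1)) := by
    simp [CmpG, Fintype.card_sum, Fintype.card_prod, Fintype.card_option]
  let ε : CmpG V N k s ≃ Fin (s + (N + Fintype.card V * (2 ^ k + 1))) :=
    Fintype.equivFinOfCardEq hcard
  let C' : RS.Circuit (Fin N) (s + (N + Fintype.card V * (2 ^ k + 1))) :=
    { kind := fun g => cmpKind C (ε.symm g)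
      vw := fun g j => cmpVw e (ε.symm g) j
      gw := fun g h => cmpGw e φ C (ε.symm g) (ε.symm h)
      level := fun g => cmpLevel C (ε.symm g)
      level_lt := fun g h hw => cmp_level_lt e φ C _ _ hw
      out := ε (Sum.inl C.out) }
  refine ⟨C', ?_, ?_⟩
  · show cmpLevel C (ε.symm (ε (Sum.inl C.out))) = _
    rw [Equiv.symm_apply_apply]
    rfl
  · intro u
    obtain ⟨val, hval⟩ := C.exists_run p (fun v => φ v (fun i => u (e v i)))
    have hT : ∀ g, C'.trueInputs u (fun h => cmpVal e φ u val (ε.symm h)) g =
        cmpT e φ C u val (ε.symm g) := by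
      intro g
      unfold Circuit.trueInputs cmpT
      simp only [cmpInd_eq]
      show _ + (∑ h, cmpInd (cmpVal e φ u val (ε.symm h))
        (cmpGw e φ C (ε.symm g) (ε.symm h))) = _
      rw [Equiv.sum_comp ε.symm
        (fun h => cmpInd (cmpVal e φ u val h) (cmpGw e φ C (ε.symm g) h))]
    have hI : ∀ g, C'.inputs g = cmpI e φ C (ε.symm g) := by
      intro g
      unfold Circuit.inputs cmpI
      show _ + (∑ h, cmpGw e φ C (ε.symm g) (ε.symm h)) = _
      rw [Equiv.sum_comp ε.symm (fun h => cmpGw e φ C (ε.symm g) h)]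
    have hrun : C'.IsRun p u (fun h => cmpVal e φ u val (ε.symm h)) := by
      intro g
      unfold Circuit.Fires
      rw [hT, hI]
      show cmpVal e φ u val (ε.symm g) = true ↔ (match cmpKind C (ε.symm g) with
        | Kind.nor => cmpT e φ C u val (ε.symm g) = 0
        | Kind.and => cmpT e φ C u val (ε.symm g) = cmpI e φ C (ε.symm g)
        | Kind.or => 0 < cmpT e φ C u val (ε.symm g)
        | Kind.mod A => A (cmpT e φ C u val (ε.symm g) % p) = true)
      generalize ε.symm g = γ
      rcases γ with g | j | ⟨v, _ | b⟩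
      · rw [cmpT_old, cmpI_old]
        exact hval g
      · rw [cmpT_not]
        show (!u j) = true ↔ (if u j = true then 1 else 0) = 0
        cases u j <;> simp
      · rw [cmpT_or]
        show φ v _ = true ↔ 0 < (if φ v (fun i => u (e v i)) = true then 1 else 0)
        cases φ v (fun i => u (e v i)) <;> simp
      · rw [cmpT_and, cmpI_and]
        show decide ((fun i => u (e v i)) = b) = true ↔
          (Finset.univ.filter fun i : Fin k => u (e v i) = b i).card = k
        rw [decide_eq_true_eq]
        constructor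
        · intro h
          have : (Finset.univ.filter fun i : Fin k => u (e v i) = b i) = Finset.univ := by
            refine Finset.filter_true_of_mem fun i _ => ?_
            rw [← h]
          rw [this]
          simp
        · intro h
          funext i
          have h2 : (Finset.univ.filter fun i : Fin k => u (e v i) = b i) = Finset.univ := by
            rw [← Finset.card_eq_iff_eq_univ, h]
            simp
          have := Finset.mem_univ i
          rw [← h2] at this
          exact (Finset.mem_filter.1 this).2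
    rw [Circuit.accepts_iff hrun, Circuit.accepts_iff hval]
    show cmpVal e φ u val (ε.symm (ε (Sum.inl C.out))) = true ↔ _
    rw [Equiv.symm_apply_apply]
    rfl

end Pool.Agent.SymCirc
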