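import Pool.Agent.SymCirc.Stmts2

/-!
# Functions of few coordinates have low degree
-/

set_option autoImplicit false

namespace Pool.Agent.SymCirc

open Finset Pool.Agent.RS

/-- the literal that says whether `j ∈ z` agrees with `j ∈ S` -/
private def Jun_lit (F : Type) [Field F] {U : Type} [DecidableEq U] (S : Finset U) (j : U) :
    Finset U → F := fun z => if (j ∈ z ↔ j ∈ S) then 1 else 0

private lemma Jun_lit_mem (F : Type) [Field F] {U : Type} [Fintype U] [DecidableEq U]
    (S : Finset U) (j : U) : Jun_lit F S j ∈ lowDeg F U 1 := by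
  by_cases h : j ∈ S
  · have h1 : Jun_lit F S j = fun z => if j ∈ z then (1 : F) else 0 := by
      funext z
      simp [Jun_lit, h]
    rw [h1]
    exact mem_lit j
  · have h1 : Jun_lit F S j = fun z => if j ∈ z then (0 : F) else 1 := by
      funext z
      by_cases hz : j ∈ z <;> simp [Jun_lit, h, hz]
    rw [h1]
    exact notMem_lit j

theorem thm_Jun : St_Jun := by
  intro F _ U _ _ k f A hA hf
  have h1 : f = ∑ S ∈ A.powerset, (f S • ∏ j ∈ A, Jun_lit F S j) := by
    funext z
    rw [Finset.sum_apply, Finset.sum_eq_single (z ∩ A)]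
    · rw [Pi.smul_apply, Finset.prod_apply, Finset.prod_eq_one, smul_eq_mul, mul_one]
      · exact hf _ _ (by rw [inter_assoc, inter_self])
      · intro j hj
        rw [Jun_lit, if_pos]
        simp [hj]
    · intro S hS hne
      rw [mem_powerset] at hS
      rw [Pi.smul_apply, Finset.prod_apply]
      have h2 : ∃ j ∈ A, ¬ (j ∈ z ↔ j ∈ S) := by
        by_contra hcon
        push Not at hcon
        refine hne ?_
        ext j
        rw [mem_inter]
        constructor
        · exact fun hj => ⟨(hcon j (hS hj)).2 hj, hS hj⟩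
        · exact fun hj => (hcon j hj.2).1 hj.1
      obtain ⟨j, hj, h2⟩ := h2
      rw [Finset.prod_eq_zero hj, smul_zero]
      rw [Jun_lit, if_neg h2]
    · intro h
      exact absurd (mem_powerset.2 inter_subset_right) h
  rw [h1]
  refine sum_mem_lowDeg _ _ fun S _ => Submodule.smul_mem _ _ ?_
  have h2 := prod_mem_lowDeg (D := 1) A (fun j => Jun_lit F S j) fun j _ => Jun_lit_mem F S j
  rw [mul_one] at h2
  exact lowDeg_mono hA h2

end Pool.Agent.SymCirc
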