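import Pool.Agent.SymCirc.Blk
import Pool.Agent.SymCirc.Apx
import Pool.Agent.SymCirc.Jun

/-!
# Majority against AC0[p] circuits above circuits with many symmetries
-/

set_option autoImplicit false

namespace Pool.Agent.SymCirc

open Finset

theorem FinB_main (hNmb : St_Nmb) (p m d : ℕ) (hp : p.Prime) (hm : 2 ≤ m) :
    ∃ K : ℕ, ∀ (n T S : ℕ) (ι G : Type) [Fintype ι] [Fintype G] (L : Circuit n ι G)
      (U : RS.Circuit (Fin n ⊕ G) S), K * T ≤ n → L.Modular m T → U.level U.out + 1 ≤ d →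
      (∀ x : Fin n → Bool, ∃ v, L.IsRun x v ∧ (U.Accepts p (Sum.elim x v) ↔
        n ≤ 2 * (Finset.univ.filter fun i => x i = true).card)) →
      (n : ℝ) ≤ (K * Real.log (S + Fintype.card G * n.factorial /
        Nat.card {ρ : Equiv.Perm (Fin n) // L.IsSymmetry ρ} + n)) ^ K := by
  have : Fact p.Prime := ⟨hp⟩
  obtain ⟨K₁, hK₁⟩ := hNmb p m d m.primeFactors.card hp.two_le
  refine ⟨K₁ + 4096, fun n T S ι G _ _ L U hT hmod hd hmaj => ?_⟩
  classical
  have hSpos : 1 ≤ S := Fin.pos U.out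
  set N := Nat.card {ρ : Equiv.Perm (Fin n) // L.IsSymmetry ρ} with hN
  have hNpos : 0 < N := by
    have : Nonempty {ρ : Equiv.Perm (Fin n) // L.IsSymmetry ρ} := ⟨⟨1, 1, 1, isAut_one⟩⟩
    exact Nat.card_pos
  set X : ℝ := S + Fintype.card G * n.factorial / N + n with hX
  have hI0 : (0 : ℝ) ≤ Fintype.card G * n.factorial / N := by positivity
  have hS1 : (1 : ℝ) ≤ S := by exact_mod_cast hSpos
  have hn0 : (0 : ℝ) ≤ n := Nat.cast_nonneg n
  have hnX : (n : ℝ) ≤ X := by rw [hX]; linarith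
  have hSX : (S : ℝ) ≤ X := by rw [hX]; linarith
  -- small cases
  rcases Nat.lt_or_ge n 2 with hn2 | hn2
  · rcases Nat.eq_zero_or_pos n with h0 | h0
    · rw [h0, Nat.cast_zero]
      have h1 : 0 ≤ Real.log X := Real.log_nonneg (by linarith)
      positivity
    · have h1 : n = 1 := by omega
      have h2 : (2 : ℝ) ≤ X := by
        have : (n : ℝ) = 1 := by rw [h1, Nat.cast_one]
        rw [hX, this]
        linarith
      have h3 : (1 / 2 : ℝ) ≤ Real.log X := by
        have h4 := Real.log_two_gt_d9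
        have h5 := Real.log_le_log (by norm_num) h2
        linarith
      have h4 : (1 : ℝ) ≤ ((K₁ + 4096 : ℕ) : ℝ) * Real.log X := by
        push_cast
        nlinarith [(Nat.cast_nonneg K₁ : (0 : ℝ) ≤ K₁)]
      rw [h1, Nat.cast_one]
      exact one_le_pow₀ h4
  have hX2 : (2 : ℝ) ≤ X := by
    have : (2 : ℝ) ≤ n := by exact_mod_cast hn2
    linarith
  have hlog : (1 / 2 : ℝ) ≤ Real.log X := by
    have h4 := Real.log_two_gt_d9
    have h5 := Real.log_le_log (by norm_num) hX2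
    linarith
  -- the choice of `k`
  set q₀ := Fintype.card G * n.factorial / N with hq₀
  set k := Nat.log 2 (q₀ + 1) + 2 with hk
  have hq₀X : (q₀ : ℝ) ≤ X := by
    have h1 : (q₀ : ℝ) ≤ Fintype.card G * n.factorial / N := by
      rw [le_div_iff₀ (by exact_mod_cast hNpos)]
      exact_mod_cast Nat.div_mul_le_self _ _
    rw [hX]
    linarith
  have hkX : (k : ℝ) ≤ 8 * Real.log X := by
    have h1 : 2 ^ Nat.log 2 (q₀ + 1) ≤ q₀ + 1 := Nat.pow_log_le_self 2 (Nat.succ_ne_zero _)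
    have h2 : ((2 : ℝ) ^ Nat.log 2 (q₀ + 1)) ≤ X ^ 2 := by
      have h3 : ((2 : ℝ) ^ Nat.log 2 (q₀ + 1)) ≤ q₀ + 1 := by exact_mod_cast h1
      nlinarith
    have h3 := Real.log_le_log (by positivity) h2
    rw [Real.log_pow, Real.log_pow] at h3
    have h4 := Real.log_two_gt_d9
    have h6 : (0 : ℝ) ≤ (Nat.log 2 (q₀ + 1) : ℝ) := Nat.cast_nonneg _
    rw [hk]
    push_cast at h3 ⊢
    nlinarith
  have hlt : Fintype.card G * n.factorial < 2 ^ k * N := by
    have h1 : q₀ + 1 < 2 ^ (Nat.log 2 (q₀ + 1) + 1) := Nat.lt_pow_succ_log_self (by norm_num) _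
    have h2 : Fintype.card G * n.factorial < (q₀ + 1) * N := by
      have h3 := Nat.div_add_mod (Fintype.card G * n.factorial) N
      have h4 := Nat.mod_lt (Fintype.card G * n.factorial) hNpos
      rw [← hq₀] at h3
      calc Fintype.card G * n.factorial = N * q₀ + (Fintype.card G * n.factorial) % N := h3.symm
        _ < N * q₀ + N := by omega
        _ = (q₀ + 1) * N := by ring
    refine h2.trans_le (Nat.mul_le_mul_right _ (h1.le.trans ?_))
    exact Nat.pow_le_pow_right (by norm_num) (by omega)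
  by_cases hb : 256 * k ≤ n
  swap
  · push Not at hb
    have h1 : (n : ℝ) ≤ 256 * k := by exact_mod_cast hb.le
    have h2 : (n : ℝ) ≤ 2048 * Real.log X := by linarith
    have h3 : (1 : ℝ) ≤ ((K₁ + 4096 : ℕ) : ℝ) * Real.log X := by
      push_cast
      nlinarith [(Nat.cast_nonneg K₁ : (0 : ℝ) ≤ K₁)]
    calc (n : ℝ) ≤ 2048 * Real.log X := h2
      _ ≤ ((K₁ + 4096 : ℕ) : ℝ) * Real.log X := by
          apply mul_le_mul_of_nonneg_right _ (by linarith)
          push_cast
          linarith [(Nat.cast_nonneg K₁ : (0 : ℝ) ≤ K₁)]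
      _ ≤ (((K₁ + 4096 : ℕ) : ℝ) * Real.log X) ^ (K₁ + 4096) := by
          exact le_self_pow₀ h3 (by omega)
  -- the main case
  have hk2 : 2 ≤ k := by omega
  have hs : Fintype.card G * n.factorial < n.choose k * N :=
    hlt.trans_le (Nat.mul_le_mul_right _ (SymC.Sup_two_pow_le (by omega)))
  have hPk : k + 1 ≤ period m k := Pool.Agent.Helper18.lt_period hm
  set P := period m k with hP
  set M := n / (4 * P) with hM
  have hM1 : 4 * P * M ≤ n := Nat.mul_div_le n (4 * P)
  have hM2 : n < 4 * P * (M + 1) := Nat.lt_mul_div_succ n (by omega)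
  have hTn : 4096 * T ≤ n := by
    refine le_trans (Nat.mul_le_mul_right _ ?_) hT
    omega
  have hPM : 4 * P * M = 4 * (P * M) := by ring
  have h2MP : 2 * M * P = 2 * (P * M) := by ring
  rw [hPM] at hM1
  set R := n - 2 * (P * M) with hR
  set q := (R + 1) / 2 with hq
  choose val hval hacc using hmaj
  have hvar := fun i : Fin n => Blk_inp_var (n := n) (P := P) (N := 2 * M) (q := q) i
  have hgate := fun g : G => Blk_gate hm hk2 hb L hs hmod val hval (N := 2 * M) (q := q)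
    (by omega) (by rw [← hP, h2MP]; omega) g
  rw [← hP] at hgate
  let inp : Finset (Fin (2 * M)) → Fin n ⊕ G → Bool := fun z =>
    Sum.elim (Blk_inp n P (2 * M) q z) (val (Blk_inp n P (2 * M) q z))
  have hdeg : ∀ v, (fun z => RS.ind p (inp z v)) ∈ RS.lowDeg (ZMod p) (Fin (2 * M)) k := by
    intro v
    rcases v with i | g
    · obtain ⟨A, hA, h⟩ := hvar i
      exact thm_Jun (ZMod p) (Fin (2 * M)) k _ A (by omega) fun z z' hz =>
        congrArg (RS.ind p) (h z z' hz)
    · obtain ⟨A, hA, h⟩ := hgate g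
      exact thm_Jun (ZMod p) (Fin (2 * M)) k _ A hA fun z z' hz =>
        congrArg (RS.ind p) (h z z' hz)
  have hval2 : ∀ z, U.Accepts p (inp z) ↔ M ≤ z.card := by
    intro z
    have h1 := hacc (Blk_inp n P (2 * M) q z)
    rw [Blk_inp_card (by rw [h2MP]; omega) z] at h1
    refine h1.trans ⟨fun h2 => ?_, fun h2 => ?_⟩
    · by_contra h3
      push Not at h3
      have h4 : P * (z.card + 1) ≤ P * M := Nat.mul_le_mul_left _ h3
      rw [mul_add, mul_one] at h4
      omega
    · have h4 : P * M ≤ P * z.card := Nat.mul_le_mul_left _ h2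
      omega
  have hRS : ∀ ℓ, 1 ≤ ℓ → 2 * (k * ((p - 1) * ℓ) ^ d + 1) ^ 2 ≤ M →
      p ^ ℓ ≤ 8 * M ^ 2 * S := by
    intro ℓ hℓ hle
    refine thm_Apx p (Fin (2 * M)) (Fin n ⊕ G) S U inp k (by omega) hdeg M ℓ (by simp) hℓ hval2 ?_
    refine le_trans ?_ hle
    have h1 : 1 ≤ (p - 1) * ℓ := Nat.mul_pos (by have := hp.two_le; omega) hℓ
    have h2 : ((p - 1) * ℓ) ^ (U.level U.out + 1) ≤ ((p - 1) * ℓ) ^ d :=
      Nat.pow_le_pow_right h1 hd
    exact Nat.mul_le_mul_left _ (Nat.pow_le_pow_left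
      (Nat.add_le_add_right (Nat.mul_le_mul_left _ h2) 1) 2)
  have hfin := hK₁ n k M P S X hn2 ((Nat.div_le_self _ _)) hnX hSX hkX
    (Pool.Agent.Helper18.period_le (by omega)) hM2.le hRS
  have hbase : (0 : ℝ) ≤ (K₁ : ℝ) * Real.log X :=
    mul_nonneg (Nat.cast_nonneg _) (by linarith)
  calc (n : ℝ) ≤ (K₁ * Real.log X) ^ K₁ := hfin
    _ ≤ (((K₁ + 4096 : ℕ) : ℝ) * Real.log X) ^ K₁ := by
        apply pow_le_pow_left₀ hbase
        apply mul_le_mul_of_nonneg_right _ (by linarith)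
        push_cast
        linarith
    _ ≤ (((K₁ + 4096 : ℕ) : ℝ) * Real.log X) ^ (K₁ + 4096) := by
        apply pow_le_pow_right₀ _ (by omega)
        push_cast
        nlinarith [(Nat.cast_nonneg K₁ : (0 : ℝ) ≤ K₁)]

end Pool.Agent.SymCirc
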