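import Pool.Agent.SymCirc.Stmts2

/-! Module Nmb of Theorem B: the numerical part. -/

namespace Pool.Agent.SymCirc

private theorem Nmb_log_bound (M S : ℕ) (X : ℝ) (hX : 2 ≤ X) (hM : (M : ℝ) ≤ X)
    (hS : (S : ℝ) ≤ X) :
    ((Nat.log 2 (8 * M ^ 2 * S) + 1 : ℕ) : ℝ) ≤ 11 * Real.log X := by
  have hl2 : (0.6931471803 : ℝ) < Real.log 2 := Real.log_two_gt_d9
  have hLX : Real.log 2 ≤ Real.log X := Real.log_le_log (by norm_num) hX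
  rcases Nat.eq_zero_or_pos (8 * M ^ 2 * S) with h0 | hpos
  · rw [h0]
    simp only [Nat.log_zero_right, zero_add, Nat.cast_one]
    linarith
  · have h1 : (2 : ℕ) ^ Nat.log 2 (8 * M ^ 2 * S) ≤ 8 * M ^ 2 * S :=
      Nat.pow_log_le_self 2 (by omega)
    have h2 : ((2 : ℝ)) ^ Nat.log 2 (8 * M ^ 2 * S) ≤ 8 * (M : ℝ) ^ 2 * S := by
      exact_mod_cast h1
    have hX0 : (0 : ℝ) < X := by linarith
    have h3 : (8 : ℝ) * (M : ℝ) ^ 2 * S ≤ X ^ 6 := by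
      have hM0 : (0 : ℝ) ≤ M := Nat.cast_nonneg M
      have hS0 : (0 : ℝ) ≤ S := Nat.cast_nonneg S
      have e1 : (M : ℝ) ^ 2 ≤ X ^ 2 := pow_le_pow_left₀ hM0 hM 2
      have e2 : (8 : ℝ) ≤ X ^ 3 := by
        have := pow_le_pow_left₀ (by norm_num : (0 : ℝ) ≤ 2) hX 3
        linarith
      calc (8 : ℝ) * (M : ℝ) ^ 2 * S ≤ X ^ 3 * X ^ 2 * X := by gcongr
        _ = X ^ 6 := by ring
    have h4 : ((2 : ℝ)) ^ Nat.log 2 (8 * M ^ 2 * S) ≤ X ^ 6 := h2.trans h3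
    have h5 := Real.log_le_log (by positivity) h4
    rw [Real.log_pow, Real.log_pow] at h5
    push_cast at h5 ⊢
    have h6 : (Nat.log 2 (8 * M ^ 2 * S) : ℝ) * 0.6931471803 ≤ 6 * Real.log X := by
      have hn : (0 : ℝ) ≤ (Nat.log 2 (8 * M ^ 2 * S) : ℝ) := Nat.cast_nonneg _
      nlinarith
    nlinarith

theorem thm_Nmb : St_Nmb := by
  intro p m d r hp
  set C : ℕ := m * 4 ^ r * (8 * (4 * (22 * p) ^ d + 1) ^ 2 + 4) with hC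
  set e : ℕ := 2 * (d + 1) + r with he
  refine ⟨2 * (C + e + 1), ?_⟩
  intro n k M P S X hn hMn hnX hSX hk hP hnP hl
  have hX : (2 : ℝ) ≤ X := by
    have : (2 : ℝ) ≤ n := by exact_mod_cast hn
    linarith
  have hMX : (M : ℝ) ≤ X := by
    have : (M : ℝ) ≤ n := by exact_mod_cast hMn
    linarith
  have hl2 : (0.6931471803 : ℝ) < Real.log 2 := Real.log_two_gt_d9
  have hLX : Real.log 2 ≤ Real.log X := Real.log_le_log (by norm_num) hX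
  set L : ℝ := Real.log X with hL
  set T : ℝ := 2 * L with hT
  have hT1 : 1 ≤ T := by rw [hT]; linarith
  have hT0 : 0 ≤ T := by linarith
  set ℓ : ℕ := Nat.log 2 (8 * M ^ 2 * S) + 1 with hℓ
  have hℓb : (ℓ : ℝ) ≤ 11 * L := Nmb_log_bound M S X hX hMX hSX
  have hbig : 8 * M ^ 2 * S < p ^ ℓ := by
    have a1 : 8 * M ^ 2 * S < 2 ^ ℓ := Nat.lt_pow_succ_log_self (by norm_num) _
    have a2 : 2 ^ ℓ ≤ p ^ ℓ := Nat.pow_le_pow_left hp ℓ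
    omega
  have hM : M < 2 * (k * ((p - 1) * ℓ) ^ d + 1) ^ 2 := by
    by_contra hcon
    push Not at hcon
    have := hl ℓ (by omega) hcon
    omega
  have hk4 : (k : ℝ) ≤ 4 * T := by rw [hT]; linarith
  have hp1 : (((p - 1) * ℓ : ℕ) : ℝ) ≤ 22 * p * T := by
    have b1 : (p - 1) * ℓ ≤ p * ℓ := Nat.mul_le_mul_right _ (Nat.sub_le _ _)
    have b2 : (((p - 1) * ℓ : ℕ) : ℝ) ≤ (p : ℝ) * ℓ := by exact_mod_cast b1
    have hp0 : (0 : ℝ) ≤ p := Nat.cast_nonneg p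
    have b3 : (p : ℝ) * ℓ ≤ p * (22 * T) := by
      apply mul_le_mul_of_nonneg_left _ hp0
      rw [hT]; linarith
    linarith
  have hq : ((k * ((p - 1) * ℓ) ^ d + 1 : ℕ) : ℝ) ≤ ((4 * (22 * p) ^ d + 1 : ℕ) : ℝ) * T ^ (d + 1) := by
    have c1 : (((p - 1) * ℓ : ℕ) : ℝ) ^ d ≤ (22 * p * T) ^ d :=
      pow_le_pow_left₀ (Nat.cast_nonneg _) hp1 d
    have c2 : (k : ℝ) * (((p - 1) * ℓ : ℕ) : ℝ) ^ d ≤ (4 * T) * (22 * p * T) ^ d := by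
      apply mul_le_mul hk4 c1 (by positivity) (by positivity)
    have c3 : (1 : ℝ) ≤ T ^ (d + 1) := one_le_pow₀ hT1
    have c4 : ((k * ((p - 1) * ℓ) ^ d + 1 : ℕ) : ℝ) = (k : ℝ) * (((p - 1) * ℓ : ℕ) : ℝ) ^ d + 1 := by
      push_cast; ring
    rw [c4]
    calc (k : ℝ) * (((p - 1) * ℓ : ℕ) : ℝ) ^ d + 1 ≤ (4 * T) * (22 * p * T) ^ d + T ^ (d + 1) := by
          linarith
      _ = ((4 * (22 * p) ^ d + 1 : ℕ) : ℝ) * T ^ (d + 1) := by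
          push_cast
          rw [mul_pow, pow_succ]
          ring
  have hMr : (4 * (M + 1) : ℝ) ≤ ((8 * (4 * (22 * p) ^ d + 1) ^ 2 + 4 : ℕ) : ℝ) * T ^ (2 * (d + 1)) := by
    have d1 : (M : ℝ) ≤ 2 * ((k * ((p - 1) * ℓ) ^ d + 1 : ℕ) : ℝ) ^ 2 := by
      exact_mod_cast hM.le
    have d2 : ((k * ((p - 1) * ℓ) ^ d + 1 : ℕ) : ℝ) ^ 2 ≤
        (((4 * (22 * p) ^ d + 1 : ℕ) : ℝ) * T ^ (d + 1)) ^ 2 :=
      pow_le_pow_left₀ (Nat.cast_nonneg _) hq 2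
    have d3 : (1 : ℝ) ≤ T ^ (2 * (d + 1)) := one_le_pow₀ hT1
    have d4 : (((4 * (22 * p) ^ d + 1 : ℕ) : ℝ) * T ^ (d + 1)) ^ 2 =
        ((4 * (22 * p) ^ d + 1 : ℕ) : ℝ) ^ 2 * T ^ (2 * (d + 1)) := by
      rw [mul_pow, ← pow_mul, mul_comm 2 (d + 1)]
    have d5 : ((8 * (4 * (22 * p) ^ d + 1) ^ 2 + 4 : ℕ) : ℝ) =
        8 * ((4 * (22 * p) ^ d + 1 : ℕ) : ℝ) ^ 2 + 4 := by push_cast; ring
    rw [d5, add_mul]
    rw [d4] at d2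
    nlinarith
  have hPr : (P : ℝ) ≤ (m * 4 ^ r : ℕ) * T ^ r := by
    have f1 : (P : ℝ) ≤ m * (k : ℝ) ^ r := by exact_mod_cast hP
    have f2 : (k : ℝ) ^ r ≤ (4 * T) ^ r := pow_le_pow_left₀ (Nat.cast_nonneg _) hk4 r
    have f3 : (m : ℝ) * (k : ℝ) ^ r ≤ m * (4 * T) ^ r :=
      mul_le_mul_of_nonneg_left f2 (Nat.cast_nonneg _)
    calc (P : ℝ) ≤ m * (k : ℝ) ^ r := f1
      _ ≤ m * (4 * T) ^ r := f3
      _ = (m * 4 ^ r : ℕ) * T ^ r := by push_cast; rw [mul_pow]; ring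
  have hmain : (n : ℝ) ≤ C * T ^ e := by
    have g1 : (n : ℝ) ≤ P * (4 * (M + 1)) := by
      have : (n : ℝ) ≤ 4 * P * (M + 1) := by exact_mod_cast hnP
      linarith
    have g2 : (P : ℝ) * (4 * (M + 1)) ≤ ((m * 4 ^ r : ℕ) * T ^ r) *
        (((8 * (4 * (22 * p) ^ d + 1) ^ 2 + 4 : ℕ) : ℝ) * T ^ (2 * (d + 1))) := by
      apply mul_le_mul hPr hMr (by positivity) (by positivity)
    calc (n : ℝ) ≤ _ := g1
      _ ≤ _ := g2
      _ = C * T ^ e := by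
        rw [hC, he, pow_add]
        push_cast
        ring
  have hfin : (C : ℝ) * T ^ e ≤ (((2 * (C + e + 1) : ℕ) : ℝ) * L) ^ (2 * (C + e + 1)) := by
    have hbase : ((2 * (C + e + 1) : ℕ) : ℝ) * L = ((C + e + 1 : ℕ) : ℝ) * T := by
      rw [hT]; push_cast; ring
    rw [hbase]
    have hK1 : (1 : ℝ) ≤ ((C + e + 1 : ℕ) : ℝ) := by
      exact_mod_cast Nat.le_add_left 1 (C + e)
    have hb1 : (1 : ℝ) ≤ ((C + e + 1 : ℕ) : ℝ) * T := one_le_mul_of_one_le_of_one_le hK1 hT1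
    have i1 : (((C + e + 1 : ℕ) : ℝ) * T) ^ (e + 1) ≤
        (((C + e + 1 : ℕ) : ℝ) * T) ^ (2 * (C + e + 1)) :=
      pow_le_pow_right₀ hb1 (by omega)
    have i2 : (C : ℝ) * T ^ e ≤ (((C + e + 1 : ℕ) : ℝ) * T) ^ (e + 1) := by
      rw [mul_pow ((C + e + 1 : ℕ) : ℝ) T (e + 1)]
      have j1 : (C : ℝ) ≤ ((C + e + 1 : ℕ) : ℝ) ^ (e + 1) := by
        have j2 : (C : ℝ) ≤ ((C + e + 1 : ℕ) : ℝ) := by
          exact_mod_cast (by omega : C ≤ C + e + 1)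
        exact j2.trans (le_self_pow₀ hK1 (by omega))
      have j3 : T ^ e ≤ T ^ (e + 1) := pow_le_pow_right₀ hT1 (by omega)
      exact mul_le_mul j1 j3 (by positivity) (by positivity)
    exact i2.trans i1
  exact hmain.trans hfin

end Pool.Agent.SymCirc
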