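import Pool.Agent.SymCirc.FinB
import Pool.Agent.SymCirc.Nmb

/-!
# Majority against AC0[p] circuits above circuits with many symmetries, after a substitution
-/

set_option autoImplicit false

namespace Pool.Agent.SymCirc

open Finset

section sums

variable {n t : ℕ}

theorem Loc_sum (φ : Fin n → Fin t ⊕ Bool) (y : Fin t → Bool) (w : Fin n → ℕ) :
    ∑ v : Fin n, (if Sum.elim y id (φ v) = true then w v else 0) =
      (∑ i : Fin t, if y i = true then ∑ v : Fin n, (if φ v = Sum.inl i then w v else 0) else 0) +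
        ∑ v : Fin n, (if φ v = Sum.inr true then w v else 0) := by
  have h1 : ∀ i : Fin t, (if y i = true then ∑ v : Fin n, (if φ v = Sum.inl i then w v else 0)
      else 0) = ∑ v : Fin n, (if y i = true then (if φ v = Sum.inl i then w v else 0) else 0) := by
    intro i
    by_cases h : y i = true <;> simp [h]
  simp only [h1]
  rw [Finset.sum_comm, ← Finset.sum_add_distrib]
  refine Finset.sum_congr rfl fun v _ => ?_
  rcases hv : φ v with i | b
  · have h2 : ∀ j : Fin t, (if y j = true then (if (Sum.inl i : Fin t ⊕ Bool) = Sum.inl j then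
        w v else 0) else 0) = if i = j then (if y i = true then w v else 0) else 0 := by
      intro j
      by_cases hij : i = j
      · subst hij
        simp
      · simp [hij]
    simp only [h2]
    simp
  · cases b <;> simp

theorem Loc_sum' (φ : Fin n → Fin t ⊕ Bool) (w : Fin n → ℕ) :
    ∑ v : Fin n, w v = (∑ i : Fin t, ∑ v : Fin n, (if φ v = Sum.inl i then w v else 0)) +
        ∑ v : Fin n, (if φ v = Sum.inr true then w v else 0) +
        ∑ v : Fin n, (if φ v = Sum.inr false then w v else 0) := by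
  rw [Finset.sum_comm, ← Finset.sum_add_distrib, ← Finset.sum_add_distrib]
  refine Finset.sum_congr rfl fun v _ => ?_
  rcases hv : φ v with i | b
  · have h2 : ∀ j : Fin t, (if (Sum.inl i : Fin t ⊕ Bool) = Sum.inl j then w v else 0) =
        if i = j then w v else 0 := by
      intro j
      by_cases hij : i = j
      · subst hij
        simp
      · simp [hij]
    simp only [h2]
    simp
  · cases b <;> simp

end sums

/-- The values of the old variables. -/
def locX {n t : ℕ} (φ : Fin n → Fin t ⊕ Bool) (y : Fin t → Bool) : Fin n → Bool :=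
  fun v => Sum.elim y id (φ v)

theorem Loc_ones {n t : ℕ} (φ : Fin n → Fin t ⊕ Bool) (b : ℕ)
    (hb : ∀ i, (univ.filter fun v => φ v = Sum.inl i).card = b) (y : Fin t → Bool) :
    (univ.filter fun v => locX φ y v = true).card =
      b * (univ.filter fun i => y i = true).card +
        (univ.filter fun v => φ v = Sum.inr true).card := by
  classical
  rw [Finset.card_filter, Finset.card_filter, Finset.card_filter]
  have h1 := Loc_sum φ y (fun _ => 1)
  have h2 : ∀ i, ∑ v : Fin n, (if φ v = Sum.inl i then 1 else 0) = b := by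
    intro i
    rw [← hb i, Finset.card_filter]
  simp only [h2] at h1
  unfold locX
  rw [h1, Finset.mul_sum]
  congr 1
  refine Finset.sum_congr rfl fun i _ => ?_
  by_cases h : y i = true <;> simp [h]

theorem Loc_total {n t : ℕ} (φ : Fin n → Fin t ⊕ Bool) (b : ℕ)
    (hb : ∀ i, (univ.filter fun v => φ v = Sum.inl i).card = b) :
    n = b * t + (univ.filter fun v => φ v = Sum.inr true).card +
      (univ.filter fun v => φ v = Sum.inr false).card := by
  classical
  have h1 := Loc_sum' φ (fun _ => 1)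
  have h2 : ∀ i, ∑ v : Fin n, (if φ v = Sum.inl i then 1 else 0) = b := by
    intro i
    rw [← hb i, Finset.card_filter]
  simp only [h2] at h1
  rw [Finset.card_filter, Finset.card_filter]
  simpa [mul_comm] using h1

section circ

variable {n t : ℕ} {ι G : Type}

/-- The circuit `L` after the substitution `φ`. -/
def locC (L : Circuit n ι G) (φ : Fin n → Fin t ⊕ Bool) : Circuit t ι G where
  label i := Sum.elim φ Sum.inr (L.label i)
  wires := L.wires
  acc := L.acc
  level := L.level
  level_lt := L.level_lt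

theorem Loc_label (L : Circuit n ι G) (φ : Fin n → Fin t ⊕ Bool) (y : Fin t → Bool) (i : ι) :
    Sum.elim y id ((locC L φ).label i) = Sum.elim (locX φ y) id (L.label i) := by
  have e : (locC L φ).label i = Sum.elim φ Sum.inr (L.label i) := rfl
  rw [e]
  generalize L.label i = l
  rcases l with v | b <;> rfl

theorem Loc_isSymmetry (L : Circuit n ι G) (φ : Fin n → Fin t ⊕ Bool)
    (ρ : Equiv.Perm (Fin n)) (σ : Equiv.Perm (Fin t))
    (hρ : ∀ v, φ (ρ v) = Sum.map σ id (φ v)) (h : L.IsSymmetry ρ) :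
    (locC L φ).IsSymmetry σ := by
  obtain ⟨α, τ, h1, h2, h3⟩ := h
  refine ⟨α, τ, ?_, h2, h3⟩
  intro i
  show Sum.elim φ Sum.inr (L.label (α i)) = Sum.map σ id (Sum.elim φ Sum.inr (L.label i))
  rw [h1 i]
  generalize L.label i = l
  rcases l with v | b
  · exact hρ v
  · rfl

variable [Fintype ι] [Fintype G]

theorem Loc_isRun (L : Circuit n ι G) (φ : Fin n → Fin t ⊕ Bool) (y : Fin t → Bool)
    (v : G → Bool) : (locC L φ).IsRun y v ↔ L.IsRun (locX φ y) v := by
  have hc : ∀ g, (locC L φ).count y v g = L.count (locX φ y) v g := by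
    intro g
    unfold Circuit.count
    refine Finset.sum_congr rfl fun a _ => ?_
    have hw : (locC L φ).wires = L.wires := rfl
    rcases a with i | h
    · simp only [Sum.elim_inl, hw]
      by_cases h : Sum.elim (locX φ y) id (L.label i) = true
      · rw [if_pos h, if_pos ((Loc_label L φ y i).trans h)]
      · rw [if_neg h, if_neg (fun h' => h ((Loc_label L φ y i).symm.trans h'))]
    · rfl
  unfold Circuit.IsRun
  simp only [hc]
  rfl

end circ

section upper

variable {n t S : ℕ} {G : Type}

/-- The number of wires from variables with the constant value `b` into the gate `g`. -/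
def locW (U : RS.Circuit (Fin n ⊕ G) S) (φ : Fin n → Fin t ⊕ Bool) (b : Bool)
    (g : Fin S) : ℕ :=
  ∑ v : Fin n, if φ v = Sum.inr b then U.vw g (Sum.inl v) else 0

/-- The circuit `U` after the substitution `φ`. -/
def locU (p : ℕ) (U : RS.Circuit (Fin n ⊕ G) S) (φ : Fin n → Fin t ⊕ Bool) :
    RS.Circuit (Fin t ⊕ G) S where
  kind g := match U.kind g with
    | RS.Kind.nor => if locW U φ true g = 0 then RS.Kind.nor else RS.Kind.mod fun _ => false
    | RS.Kind.and => if locW U φ false g = 0 then RS.Kind.and else RS.Kind.mod fun _ => false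
    | RS.Kind.or => if locW U φ true g = 0 then RS.Kind.or else RS.Kind.mod fun _ => true
    | RS.Kind.mod B => RS.Kind.mod fun r => B ((r + locW U φ true g) % p)
  vw g := Sum.elim (fun i => ∑ v : Fin n, if φ v = Sum.inl i then U.vw g (Sum.inl v) else 0)
    fun h => U.vw g (Sum.inr h)
  gw := U.gw
  level := U.level
  level_lt := U.level_lt
  out := U.out

variable [Fintype G]

theorem Loc_true (p : ℕ) (U : RS.Circuit (Fin n ⊕ G) S) (φ : Fin n → Fin t ⊕ Bool)
    (y : Fin t → Bool) (v : G → Bool) (val : Fin S → Bool) (g : Fin S) :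
    U.trueInputs (Sum.elim (locX φ y) v) val g =
      (locU p U φ).trueInputs (Sum.elim y v) val g + locW U φ true g := by
  unfold RS.Circuit.trueInputs
  rw [Fintype.sum_sum_type, Fintype.sum_sum_type]
  have h1 : ∑ i : Fin n, (if Sum.elim (locX φ y) v (Sum.inl i) = true then
      U.vw g (Sum.inl i) else 0) = _ := Loc_sum φ y (fun i => U.vw g (Sum.inl i))
  have h2 : (∑ i : Fin t, if y i = true then ∑ v : Fin n, (if φ v = Sum.inl i then
      U.vw g (Sum.inl v) else 0) else 0) = ∑ i : Fin t, if Sum.elim y v (Sum.inl i) = true then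
        (locU p U φ).vw g (Sum.inl i) else 0 := rfl
  have h3 : (∑ h : G, if Sum.elim (locX φ y) v (Sum.inr h) = true then
      U.vw g (Sum.inr h) else 0) = ∑ h : G, if Sum.elim y v (Sum.inr h) = true then
        (locU p U φ).vw g (Sum.inr h) else 0 := rfl
  have h4 : (∑ h, if val h = true then U.gw g h else 0) =
      ∑ h, if val h = true then (locU p U φ).gw g h else 0 := rfl
  rw [h1, h2, h3, h4]
  unfold locW
  ring

theorem Loc_inputs (p : ℕ) (U : RS.Circuit (Fin n ⊕ G) S) (φ : Fin n → Fin t ⊕ Bool)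
    (g : Fin S) :
    U.inputs g = (locU p U φ).inputs g + locW U φ true g + locW U φ false g := by
  unfold RS.Circuit.inputs
  rw [Fintype.sum_sum_type, Fintype.sum_sum_type]
  have h1 := Loc_sum' φ (fun i => U.vw g (Sum.inl i))
  have h2 : (∑ i : Fin t, ∑ v : Fin n, (if φ v = Sum.inl i then
      U.vw g (Sum.inl v) else 0)) = ∑ i : Fin t, (locU p U φ).vw g (Sum.inl i) := rfl
  have h4 : (∑ h : G, U.vw g (Sum.inr h)) = ∑ h : G, (locU p U φ).vw g (Sum.inr h) := rfl
  have h5 : (∑ h, U.gw g h) = ∑ h, (locU p U φ).gw g h := rfl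
  rw [h1, h2, h4, h5]
  unfold locW
  ring

theorem Loc_le (U : RS.Circuit (Fin t ⊕ G) S) (x : Fin t ⊕ G → Bool) (val : Fin S → Bool)
    (g : Fin S) : U.trueInputs x val g ≤ U.inputs g := by
  unfold RS.Circuit.trueInputs RS.Circuit.inputs
  refine Nat.add_le_add (Finset.sum_le_sum fun i _ => ?_) (Finset.sum_le_sum fun i _ => ?_) <;>
    split_ifs <;> simp

theorem Loc_fires (p : ℕ) (U : RS.Circuit (Fin n ⊕ G) S) (φ : Fin n → Fin t ⊕ Bool)
    (y : Fin t → Bool) (v : G → Bool) (val : Fin S → Bool) (g : Fin S) :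
    U.Fires p (Sum.elim (locX φ y) v) val g ↔ (locU p U φ).Fires p (Sum.elim y v) val g := by
  have h1 := Loc_true p U φ y v val g
  have h2 := Loc_inputs p U φ g
  have h3 := Loc_le (locU p U φ) (Sum.elim y v) val g
  unfold RS.Circuit.Fires
  have hk : (locU p U φ).kind g = match U.kind g with
    | RS.Kind.nor => if locW U φ true g = 0 then RS.Kind.nor else RS.Kind.mod fun _ => false
    | RS.Kind.and => if locW U φ false g = 0 then RS.Kind.and else RS.Kind.mod fun _ => false
    | RS.Kind.or => if locW U φ true g = 0 then RS.Kind.or else RS.Kind.mod fun _ => true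
    | RS.Kind.mod B => RS.Kind.mod fun r => B ((r + locW U φ true g) % p) := rfl
  rcases hU : U.kind g with _ | _ | _ | B
  · rw [hU] at hk
    by_cases h0 : locW U φ true g = 0
    · simp only [h0, if_true] at hk
      simp only [hk, h1, h0]
      simp
    · simp only [h0, if_false] at hk
      simp only [hk, h1]
      simp [h0]
  · rw [hU] at hk
    by_cases h0 : locW U φ false g = 0
    · simp only [h0, if_true] at hk
      simp only [hk, h1, h2, h0]
      omega
    · simp only [h0, if_false] at hk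
      simp only [hk, h1, h2]
      constructor
      · intro h; omega
      · intro h; simp at h
  · rw [hU] at hk
    by_cases h0 : locW U φ true g = 0
    · simp only [h0, if_true] at hk
      simp only [hk, h1, h0]
      simp
    · simp only [h0, if_false] at hk
      simp only [hk, h1]
      constructor
      · intro _; trivial
      · intro _; omega
  · rw [hU] at hk
    simp only at hk
    simp only [hk, h1]
    rw [Nat.add_mod ((locU p U φ).trueInputs (Sum.elim y v) val g % p), Nat.mod_mod,
      ← Nat.add_mod]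

theorem Loc_accepts (p : ℕ) (U : RS.Circuit (Fin n ⊕ G) S) (φ : Fin n → Fin t ⊕ Bool)
    (y : Fin t → Bool) (v : G → Bool) :
    (locU p U φ).Accepts p (Sum.elim y v) ↔ U.Accepts p (Sum.elim (locX φ y) v) := by
  unfold RS.Circuit.Accepts RS.Circuit.IsRun
  simp only [Loc_fires p U φ y v]
  rfl

end upper

/-! ## The group of the lifted permutations -/

section group

variable {n t : ℕ} {ι G : Type}

/-- The permutations of the new variables that lift to symmetries of `L`. -/
def locH (L : Circuit n ι G) (φ : Fin n → Fin t ⊕ Bool) : Subgroup (Equiv.Perm (Fin t)) where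
  carrier := {σ | ∃ ρ : Equiv.Perm (Fin n), L.IsSymmetry ρ ∧ ∀ v, φ (ρ v) = Sum.map σ id (φ v)}
  one_mem' := by
    refine ⟨1, ⟨1, 1, isAut_one⟩, fun v => ?_⟩
    show φ v = Sum.map id id (φ v)
    rw [Sum.map_id_id]
    rfl
  mul_mem' := by
    rintro σ σ' ⟨ρ, ⟨α, τ, h⟩, hρ⟩ ⟨ρ', ⟨α', τ', h'⟩, hρ'⟩
    refine ⟨ρ * ρ', ⟨α * α', τ * τ', isAut_mul h h'⟩, fun v => ?_⟩
    rw [Equiv.Perm.mul_apply, hρ, hρ']
    rcases φ v with i | b <;> rfl
  inv_mem' := by
    rintro σ ⟨ρ, ⟨α, τ, h⟩, hρ⟩
    refine ⟨ρ⁻¹, ⟨α⁻¹, τ⁻¹, isAut_inv h⟩, fun v => ?_⟩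
    have h1 := hρ (ρ⁻¹ v)
    rw [show ρ (ρ⁻¹ v) = v from Equiv.apply_symm_apply ρ v] at h1
    rw [h1]
    rcases φ (ρ⁻¹ v) with i | b
    · simp
    · rfl

/-- The index of the pointwise stabiliser of the complement of `A`. -/
theorem Loc_index (H : Subgroup (Equiv.Perm (Fin t))) (A : Finset (Fin t)) :
    Nat.card H * A.card.factorial ≤
      Nat.card {σ : Equiv.Perm (Fin t) // (∀ i, i ∉ A → σ i = i) ∧ σ ∈ H} * t.factorial := by
  classical
  set C := {σ : Equiv.Perm (Fin t) // (∀ i, i ∉ A → σ i = i) ∧ σ ∈ H} with hC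
  let f : H → ({i : Fin t // i ∉ A} ↪ Fin t) := fun σ =>
    ⟨fun i => σ.1 i.1, fun i j h => Subtype.ext (σ.1.injective h)⟩
  have hfib : ∀ a ∈ (univ : Finset H).image f,
      ((univ : Finset H).filter fun σ => f σ = a).card ≤ Fintype.card C := by
    intro a ha
    obtain ⟨σ₀, -, rfl⟩ := Finset.mem_image.mp ha
    rw [← Finset.card_univ (α := C)]
    apply Finset.card_le_card_of_injOn (fun σ : H =>
      if h : f σ = f σ₀ then (⟨(σ₀.1)⁻¹ * σ.1, fun i hi => by
        have h1 := congrArg (fun g : ({i : Fin t // i ∉ A} ↪ Fin t) => g ⟨i, hi⟩) h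
        have h2 : σ.1 i = σ₀.1 i := h1
        rw [Equiv.Perm.mul_apply, h2]
        exact Equiv.symm_apply_apply σ₀.1 i, H.mul_mem (H.inv_mem σ₀.2) σ.2⟩ : C)
      else ⟨1, fun i _ => rfl, H.one_mem⟩)
    · intro σ _
      exact Finset.mem_coe.mpr (Finset.mem_univ _)
    · intro σ hσ σ' hσ' h
      have h1 : f σ = f σ₀ := (Finset.mem_filter.mp (Finset.mem_coe.mp hσ)).2
      have h2 : f σ' = f σ₀ := (Finset.mem_filter.mp (Finset.mem_coe.mp hσ')).2
      simp only [h1, h2, dif_pos] at h
      have h3 := congrArg Subtype.val h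
      exact Subtype.ext (mul_left_cancel h3)
  have h1 := Finset.card_le_mul_card_image (f := f) (univ : Finset H) (Fintype.card C) hfib
  have h2 : ((univ : Finset H).image f).card ≤
      Fintype.card ({i : Fin t // i ∉ A} ↪ Fin t) := Finset.card_le_univ _
  have hAt : A.card ≤ t := by simpa using Finset.card_le_univ A
  have hc : Fintype.card {i : Fin t // i ∉ A} = t - A.card := by
    rw [Fintype.card_subtype_compl, Fintype.card_fin, Fintype.card_coe]
  have h3 : Fintype.card ({i : Fin t // i ∉ A} ↪ Fin t) * A.card.factorial = t.factorial := by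
    rw [Fintype.card_embedding_eq, Fintype.card_fin, hc]
    have h4 := Nat.factorial_mul_descFactorial (n := t) (k := t - A.card) (Nat.sub_le _ _)
    rw [Nat.sub_sub_self hAt] at h4
    rw [mul_comm]
    exact h4
  rw [Nat.card_eq_fintype_card, Nat.card_eq_fintype_card, ← h3, ← mul_assoc]
  apply Nat.mul_le_mul_right
  calc Fintype.card H = (univ : Finset H).card := Finset.card_univ.symm
    _ ≤ Fintype.card C * ((univ : Finset H).image f).card := h1
    _ ≤ _ := Nat.mul_le_mul_left _ h2

end group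

/-- Choice of the exact majority. -/
theorem Loc_choice (n b j t : ℕ) (hb : 1 ≤ b) (ht : 1 ≤ t) (h1 : 2 * n ≤ 4 * j + 3 * (b * t))
    (h2 : 4 * j + b * t ≤ 2 * n) :
    ∃ t' w : ℕ, t' + w ≤ t ∧ t ≤ 3 * t' ∧
      ∀ o : ℕ, n ≤ 2 * (b * (o + w) + j) ↔ t' ≤ 2 * o := by
  classical
  have hex : ∃ x : ℕ, n ≤ 2 * (b * x + j) := ⟨t, by nlinarith⟩
  obtain ⟨θ, hθ, hmin⟩ : ∃ θ, n ≤ 2 * (b * θ + j) ∧ ∀ x, x < θ → ¬ n ≤ 2 * (b * x + j) :=
    ⟨Nat.find hex, Nat.find_spec hex, fun x hx => Nat.find_min hex hx⟩
  have hiff : ∀ x, n ≤ 2 * (b * x + j) ↔ θ ≤ x := by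
    intro x
    constructor
    · intro h
      by_contra hcon
      exact hmin x (by omega) h
    · intro h
      have : b * θ ≤ b * x := Nat.mul_le_mul_left b h
      omega
  have hlow : t ≤ 4 * θ := by
    have h3 : b * t ≤ b * (4 * θ) := by
      have : b * (4 * θ) = 4 * (b * θ) := by ring
      omega
    exact Nat.le_of_mul_le_mul_left h3 hb
  have hup : 4 * θ ≤ 3 * t + 3 := by
    by_contra hcon
    have h3 : 3 * t ≤ 4 * (θ - 1) := by omega
    have h4 : b * (3 * t) ≤ b * (4 * (θ - 1)) := Nat.mul_le_mul_left b h3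
    have h5 : b * (3 * t) = 3 * (b * t) := by ring
    have h6 : b * (4 * (θ - 1)) = 4 * (b * (θ - 1)) := by ring
    have h7 : n ≤ 2 * (b * (θ - 1) + j) := by omega
    exact hmin (θ - 1) (by omega) h7
  by_cases hc : 2 * θ ≤ t
  · refine ⟨2 * θ, 0, by omega, by omega, fun o => ?_⟩
    rw [hiff]
    omega
  · refine ⟨2 * (t - θ) + 1, 2 * θ - t - 1, by omega, by omega, fun o => ?_⟩
    rw [hiff]
    omega

/-- Majority against AC0[p] circuits above circuits `L`, where `Sym(t)` acts on `L` through the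
substitution `φ`. -/
theorem Loc_main (p m d : ℕ) (hp : p.Prime) (hm : 2 ≤ m) :
    ∃ K : ℕ, ∀ (n t b T S : ℕ) (ι G : Type) [Fintype ι] [Fintype G] (L : Circuit n ι G)
      (U : RS.Circuit (Fin n ⊕ G) S) (φ : Fin n → Fin t ⊕ Bool), 1 ≤ b →
      (∀ i, (univ.filter fun v => φ v = Sum.inl i).card = b) →
      2 * (univ.filter fun v => φ v = Sum.inr true).card ≤
        b * t + 2 * (univ.filter fun v => φ v = Sum.inr false).card →
      2 * (univ.filter fun v => φ v = Sum.inr false).card ≤
        b * t + 2 * (univ.filter fun v => φ v = Sum.inr true).card →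
      K * T ≤ t → L.Modular m T → U.level U.out + 1 ≤ d →
      (∀ x : Fin n → Bool, ∃ v, L.IsRun x v ∧ (U.Accepts p (Sum.elim x v) ↔
        n ≤ 2 * (univ.filter fun i => x i = true).card)) →
      (t : ℝ) ≤ (K * Real.log (S + Fintype.card G * t.factorial /
        Nat.card {σ : Equiv.Perm (Fin t) // ∃ ρ : Equiv.Perm (Fin n), L.IsSymmetry ρ ∧
          ∀ v, φ (ρ v) = Sum.map σ id (φ v)} + t)) ^ K := by
  classical
  obtain ⟨K, hK⟩ := FinB_main thm_Nmb p m d hp hm
  refine ⟨3 * K + 3, fun n t b T S ι G _ _ L U φ hb1 hb h10 h01 hT hmod hd hmaj => ?_⟩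
  set j := (univ.filter fun v => φ v = Sum.inr true).card with hj
  set j₀ := (univ.filter fun v => φ v = Sum.inr false).card with hj₀
  have hS : (1 : ℝ) ≤ S := by exact_mod_cast Fin.pos U.out
  set N := Nat.card {σ : Equiv.Perm (Fin t) // ∃ ρ : Equiv.Perm (Fin n), L.IsSymmetry ρ ∧
          ∀ v, φ (ρ v) = Sum.map σ id (φ v)} with hN
  rcases Nat.eq_zero_or_pos t with ht0 | ht1
  · have h1 : (0 : ℝ) ≤ Fintype.card G * t.factorial / N := by positivity
    have h2 : (0 : ℝ) ≤ Real.log (S + Fintype.card G * t.factorial / N + t) := by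
      apply Real.log_nonneg
      have : (0 : ℝ) ≤ t := by positivity
      linarith
    have h3 : (t : ℝ) = 0 := by rw [ht0]; simp
    calc (t : ℝ) = 0 := h3
      _ ≤ _ := by positivity
  have htot : n = b * t + j + j₀ := Loc_total φ b hb
  obtain ⟨t', w, htw, htt, hiff⟩ := Loc_choice n b j t hb1 ht1 (by omega) (by omega)
  -- the set of remaining variables
  obtain ⟨A, -, hAc⟩ := Finset.exists_subset_card_eq
    (show t' ≤ (univ : Finset (Fin t)).card by simpa using (by omega : t' ≤ t))
  obtain ⟨W, hWs, hWc⟩ := Finset.exists_subset_card_eq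
    (show w ≤ (univ \ A).card by
      rw [Finset.card_sdiff_of_subset (Finset.subset_univ A), Finset.card_univ, Fintype.card_fin,
        hAc]
      omega)
  subst hAc
  set ψ : Fin t → Fin A.card ⊕ Bool := fun i =>
    if h : i ∈ A then Sum.inl (A.equivFin ⟨i, h⟩) else Sum.inr (decide (i ∈ W)) with hψ
  set φ' : Fin n → Fin A.card ⊕ Bool := fun v => Sum.elim ψ Sum.inr (φ v) with hφ'
  -- the new circuits
  have hX : ∀ y : Fin A.card → Bool, locX φ' y = locX φ (fun i => Sum.elim y id (ψ i)) := by
    intro y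
    funext v
    show Sum.elim y id (Sum.elim ψ Sum.inr (φ v)) =
      Sum.elim (fun i => Sum.elim y id (ψ i)) id (φ v)
    rcases φ v with i | c <;> rfl
  have hones : ∀ y : Fin A.card → Bool,
      (univ.filter fun i => Sum.elim y id (ψ i) = true).card =
        (univ.filter fun i => y i = true).card + w := by
    intro y
    have h1 := Loc_ones ψ 1 (by
      intro i
      rw [Finset.card_eq_one]
      refine ⟨(A.equivFin.symm i).1, ?_⟩
      ext k
      simp only [Finset.mem_filter, Finset.mem_univ, true_and, Finset.mem_singleton]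
      constructor
      · intro h
        by_cases hk : k ∈ A
        · simp only [hψ, hk, dif_pos] at h
          have h2 : A.equivFin ⟨k, hk⟩ = i := Sum.inl.inj h
          rw [← h2]
          simp
        · simp [hψ, hk] at h
      · rintro rfl
        simp [hψ]) y
    rw [one_mul] at h1
    have h2 : (univ.filter fun v => ψ v = Sum.inr true) = W := by
      ext k
      simp only [Finset.mem_filter, Finset.mem_univ, true_and]
      constructor
      · intro h
        by_cases hk : k ∈ A
        · simp [hψ, hk] at h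
        · simpa [hψ, hk] using h
      · intro h
        have hk : k ∉ A := (Finset.mem_sdiff.mp (hWs h)).2
        simp [hψ, hk, h]
    rw [h2, hWc] at h1
    exact h1
  have hmaj' : ∀ y : Fin A.card → Bool, ∃ v, (locC L φ').IsRun y v ∧
      ((locU p U φ').Accepts p (Sum.elim y v) ↔
        A.card ≤ 2 * (univ.filter fun i => y i = true).card) := by
    intro y
    obtain ⟨v, hv, hvU⟩ := hmaj (locX φ' y)
    refine ⟨v, (Loc_isRun L φ' y v).mpr hv, ?_⟩
    rw [Loc_accepts, hvU, hX, Loc_ones φ b hb, hones]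
    exact hiff _
  have hKT : K * T ≤ A.card := by
    have h1 : 3 * (K * T) ≤ 3 * A.card := by
      calc 3 * (K * T) ≤ (3 * K + 3) * T := by nlinarith
        _ ≤ t := hT
        _ ≤ 3 * A.card := htt
    omega
  have hmain := hK A.card T S ι G (locC L φ') (locU p U φ') hKT hmod hd hmaj'
  set N' := Nat.card {σ : Equiv.Perm (Fin A.card) // (locC L φ').IsSymmetry σ} with hN'
  -- comparison of the numbers of symmetries
  have hAiff : ∀ σ : Equiv.Perm (Fin t), (∀ i, i ∉ A → σ i = i) → ∀ i, σ i ∈ A ↔ i ∈ A := by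
    intro ρ hρ i
    constructor
    · intro hi
      by_contra hcon
      exact hcon (hρ i hcon ▸ hi)
    · intro hi
      by_contra hcon
      have h1 := hρ _ hcon
      have h2 := ρ.injective h1
      exact hcon (by rw [h2]; exact hi)
  have hlift : ∀ σ : Equiv.Perm (Fin t), ∀ hσ : (∀ i, i ∉ A → σ i = i), σ ∈ locH L φ →
      (locC L φ').IsSymmetry (A.equivFin.permCongr (σ.subtypePerm (fun i => hAiff σ hσ i))) := by
    rintro σ hσ ⟨ρ, hρ, hρφ⟩
    apply Loc_isSymmetry L φ' ρ _ _ hρ
    intro v
    show Sum.elim ψ Sum.inr (φ (ρ v)) = Sum.map _ id (Sum.elim ψ Sum.inr (φ v))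
    rw [hρφ v]
    rcases φ v with i | c
    · show ψ (σ i) = Sum.map _ id (ψ i)
      by_cases hi : i ∈ A
      · have hi' : σ i ∈ A := (hAiff σ hσ i).mpr hi
        simp [hψ, hi, hi', Equiv.permCongr_apply, Equiv.Perm.subtypePerm_apply]
      · rw [hσ i hi]
        simp [hψ, hi]
    · rfl
  have hcard : Nat.card {σ : Equiv.Perm (Fin t) // (∀ i, i ∉ A → σ i = i) ∧ σ ∈ locH L φ} ≤
      N' := by
    apply Nat.card_le_card_of_injective (fun σ => (⟨A.equivFin.permCongr
      (σ.1.subtypePerm (fun i => hAiff σ.1 σ.2.1 i)), hlift σ.1 σ.2.1 σ.2.2⟩ :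
      {σ : Equiv.Perm (Fin A.card) // (locC L φ').IsSymmetry σ}))
    rintro ⟨σ, hσ⟩ ⟨σ', hσ'⟩ h
    have h1 := congrArg Subtype.val h
    have h2 := A.equivFin.permCongr.injective h1
    apply Subtype.ext
    apply Equiv.ext
    intro i
    by_cases hi : i ∈ A
    · have h3 := congrArg (fun f : Equiv.Perm {i // i ∈ A} => (f ⟨i, hi⟩).1) h2
      simpa using h3
    · show σ i = σ' i
      rw [hσ.1 i hi, hσ'.1 i hi]
  have hidx := Loc_index (locH L φ) A
  have hNH : Nat.card (locH L φ) = N := rfl
  rw [hNH] at hidx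
  have hNpos : 0 < N := by
    rw [← hNH]
    exact Nat.card_pos
  have hN'pos : 0 < N' := by
    have : Nonempty {σ : Equiv.Perm (Fin A.card) // (locC L φ').IsSymmetry σ} :=
      ⟨⟨1, 1, 1, isAut_one⟩⟩
    exact Nat.card_pos
  have hidx2 : N * A.card.factorial ≤ N' * t.factorial :=
    hidx.trans (Nat.mul_le_mul_right _ hcard)
  have hquo : (Fintype.card G * A.card.factorial : ℝ) / N' ≤
      Fintype.card G * t.factorial / N := by
    rw [div_le_div_iff₀ (by exact_mod_cast hN'pos) (by exact_mod_cast hNpos)]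
    have h1 : ((N * A.card.factorial : ℕ) : ℝ) ≤ ((N' * t.factorial : ℕ) : ℝ) := by
      exact_mod_cast hidx2
    push_cast at h1
    have h2 : (0 : ℝ) ≤ Fintype.card G := by positivity
    nlinarith [mul_le_mul_of_nonneg_left h1 h2]
  have hAt : (A.card : ℝ) ≤ t := by
    have : A.card ≤ t := by omega
    exact_mod_cast this
  set X : ℝ := S + Fintype.card G * t.factorial / N + t with hXdef
  have hq0 : (0 : ℝ) ≤ Fintype.card G * t.factorial / N := by positivity
  have ht1' : (1 : ℝ) ≤ t := by exact_mod_cast ht1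
  have hX2 : (2 : ℝ) ≤ X := by rw [hXdef]; linarith
  have hlog2 : (0.69 : ℝ) ≤ Real.log X :=
    le_trans (by have := Real.log_two_gt_d9; linarith) (Real.log_le_log (by norm_num) hX2)
  have hle : Real.log (S + Fintype.card G * A.card.factorial / N' + A.card) ≤ Real.log X := by
    apply Real.log_le_log
    · have h1 : (0 : ℝ) ≤ Fintype.card G * A.card.factorial / N' := by positivity
      have h2 : (0 : ℝ) ≤ A.card := by positivity
      linarith
    · rw [hXdef]
      linarith
  have hlog0 : 0 ≤ Real.log (S + Fintype.card G * A.card.factorial / N' + A.card) := by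
    apply Real.log_nonneg
    have h1 : (0 : ℝ) ≤ Fintype.card G * A.card.factorial / N' := by positivity
    have h2 : (0 : ℝ) ≤ A.card := by positivity
    linarith
  have hK0 : (0 : ℝ) ≤ K := by positivity
  have h5 : (A.card : ℝ) ≤ (K * Real.log X) ^ K :=
    hmain.trans (pow_le_pow_left₀ (by positivity) (mul_le_mul_of_nonneg_left hle hK0) K)
  have h6 : (t : ℝ) ≤ 3 * A.card := by exact_mod_cast htt
  set Y : ℝ := ((3 * K + 3 : ℕ) : ℝ) * Real.log X with hY
  have hYK : (K : ℝ) * Real.log X ≤ Y := by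
    rw [hY]
    push_cast
    nlinarith
  have hY2 : (2 : ℝ) ≤ Y := by
    rw [hY]
    push_cast
    nlinarith
  calc (t : ℝ) ≤ 3 * A.card := h6
    _ ≤ 3 * (K * Real.log X) ^ K := by linarith
    _ ≤ Y ^ 2 * Y ^ K := by
      have h7 : (3 : ℝ) ≤ Y ^ 2 := by nlinarith
      have h8 : ((K : ℝ) * Real.log X) ^ K ≤ Y ^ K :=
        pow_le_pow_left₀ (by positivity) hYK K
      have h9 : (0 : ℝ) ≤ ((K : ℝ) * Real.log X) ^ K := by positivity
      nlinarith
    _ = Y ^ (K + 2) := by rw [← pow_add]; congr 1; omega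
    _ ≤ Y ^ (3 * K + 3) := pow_le_pow_right₀ (by linarith) (by omega)

end Pool.Agent.SymCirc
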