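import Pool.Agent.SymC.Mov
import Pool.Agent.SymC.Sup
import Pool.Agent.SymCirc.Defs
import Pool.Agent.Helper18.Period

/-!
# Small circuits with many symmetries compute regular functions
-/

set_option autoImplicit false

namespace Pool.Agent.SymCirc

open Equiv Equiv.Perm Finset Pool.Agent.Helper18 Pool.Agent.SymC

variable {n : ℕ} {ι G : Type} {C : Circuit n ι G}

open Circuit

theorem isAut_one : C.IsAut 1 1 1 := by
  refine ⟨fun i => ?_, fun g a => ?_, fun g => rfl⟩
  · change C.label i = Sum.map id id (C.label i)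
    rw [Sum.map_id_id]
    rfl
  · change C.wires g (Sum.map id id a) = C.wires g a
    rw [Sum.map_id_id]
    rfl

theorem map_mul' {A B : Type} (σ σ' : Perm A) (τ τ' : Perm B) (a : A ⊕ B) :
    Sum.map (σ * σ' : Perm A) (τ * τ' : Perm B) a = Sum.map σ τ (Sum.map σ' τ' a) := by
  rcases a with a | a <;> rfl

theorem map_inv' {A B : Type} (σ : Perm A) (τ : Perm B) (a : A ⊕ B) :
    Sum.map σ τ (Sum.map (σ⁻¹ : Perm A) (τ⁻¹ : Perm B) a) = a := by
  rcases a with a | a <;> simp

theorem isAut_mul {ρ ρ' : Perm (Fin n)} {σ σ' : Perm ι} {τ τ' : Perm G} (h : C.IsAut ρ σ τ)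
    (h' : C.IsAut ρ' σ' τ') : C.IsAut (ρ * ρ') (σ * σ') (τ * τ') := by
  obtain ⟨h0, h1, h2⟩ := h
  obtain ⟨h0', h1', h2'⟩ := h'
  refine ⟨fun i => ?_, fun g a => ?_, fun g => ?_⟩
  · rw [Perm.mul_apply, h0, h0']
    rcases C.label i with j | c <;> rfl
  · rw [map_mul', Perm.mul_apply, h1, h1']
  · rw [Perm.mul_apply, h2, h2']

theorem isAut_inv {ρ : Perm (Fin n)} {σ : Perm ι} {τ : Perm G} (h : C.IsAut ρ σ τ) :
    C.IsAut ρ⁻¹ σ⁻¹ τ⁻¹ := by
  obtain ⟨h0, h1, h2⟩ := h
  refine ⟨fun i => ?_, fun g a => ?_, fun g => ?_⟩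
  · have h4 := h0 (σ⁻¹ i)
    rw [ap_inv] at h4
    rw [h4]
    rcases C.label (σ⁻¹ i) with j | c <;> simp
  · rw [← h1 (τ⁻¹ g), ap_inv, map_inv']
  · rw [← h2 (τ⁻¹ g), ap_inv]

theorem isRun_unique [Fintype ι] [Fintype G] {x : Fin n → Bool} {v w : G → Bool}
    (hv : C.IsRun x v) (hw : C.IsRun x w) : v = w := by
  have key : ∀ l, ∀ g, C.level g = l → v g = w g := by
    intro l
    induction l using Nat.strong_induction_on with
    | _ l ih =>
      intro g hg
      have h1 : C.count x v g = C.count x w g := by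
        apply Finset.sum_congr rfl
        intro a _
        rcases a with i | h
        · rfl
        · by_cases h0 : C.wires g (Sum.inr h) = 0
          · simp [h0]
          · have h2 := ih (C.level h) (hg ▸ C.level_lt g h h0) h rfl
            rw [Sum.elim_inr, Sum.elim_inr, h2]
      rw [Bool.eq_iff_iff, hv g, hw g, h1]
  funext g
  exact key _ g rfl

theorem isRun_transport [Fintype ι] [Fintype G] {x : Fin n → Bool} {v : G → Bool}
    (hv : C.IsRun x v) {ρ : Perm (Fin n)} {σ : Perm ι} {τ : Perm G} (ha : C.IsAut ρ σ τ) :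
    C.IsRun (x ∘ ρ) (v ∘ τ) := by
  intro g
  obtain ⟨h0, h1, h2⟩ := ha
  have h4 : C.count (x ∘ ρ) (v ∘ τ) g = C.count x v (τ g) := by
    unfold Circuit.count
    rw [← Equiv.sum_comp (Equiv.sumCongr σ τ) (fun a =>
      if Sum.elim (fun i => Sum.elim x id (C.label i)) v a = true then C.wires (τ g) a else 0)]
    apply Finset.sum_congr rfl
    intro a _
    have h5 : C.wires (τ g) ((Equiv.sumCongr σ τ) a) = C.wires g a := h1 g a
    rw [h5]
    rcases a with i | a
    · have h6 : Sum.elim x id (C.label (σ i)) = Sum.elim (x ∘ ρ) id (C.label i) := by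
        rw [h0 i]
        rcases C.label i with j | c <;> rfl
      change (if Sum.elim (x ∘ ρ) id (C.label i) = true then C.wires g (Sum.inl i) else 0) =
        (if Sum.elim x id (C.label (σ i)) = true then C.wires g (Sum.inl i) else 0)
      rw [h6]
    · rfl
  have := hv (τ g)
  rw [h2, ← h4] at this
  exact this

/-- The permutations of the variables extending to an automorphism that fixes the gate `g`. -/
def stab (C : Circuit n ι G) (g : G) : Subgroup (Perm (Fin n)) where
  carrier := {ρ | ∃ σ τ, C.IsAut ρ σ τ ∧ τ g = g}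
  one_mem' := ⟨1, 1, isAut_one, rfl⟩
  mul_mem' := by
    rintro π π' ⟨σ, τ, h, hg⟩ ⟨σ', τ', h', hg'⟩
    exact ⟨σ * σ', τ * τ', isAut_mul h h', by rw [Perm.mul_apply, hg', hg]⟩
  inv_mem' := by
    rintro π ⟨σ, τ, h, hg⟩
    exact ⟨σ⁻¹, τ⁻¹, isAut_inv h, by rw [Perm.inv_eq_iff_eq, hg]⟩

/-- The symmetries of the circuit. -/
def syms (C : Circuit n ι G) : Subgroup (Perm (Fin n)) where
  carrier := {ρ | ∃ σ τ, C.IsAut ρ σ τ}
  one_mem' := ⟨1, 1, isAut_one⟩
  mul_mem' := by
    rintro π π' ⟨σ, τ, h⟩ ⟨σ', τ', h'⟩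
    exact ⟨σ * σ', τ * τ', isAut_mul h h'⟩
  inv_mem' := by
    rintro π ⟨σ, τ, h⟩
    exact ⟨σ⁻¹, τ⁻¹, isAut_inv h⟩

theorem stab_le_syms (g : G) : stab C g ≤ syms C := by
  rintro π ⟨σ, τ, h, -⟩
  exact ⟨σ, τ, h⟩

theorem relIndex_stab_le [Fintype G] (g : G) :
    (stab C g).relIndex (syms C) ≤ Fintype.card G := by
  have hsym' : ∀ π : syms C, ∃ σ τ, C.IsAut (π : Perm (Fin n)) σ τ := fun π => π.2
  choose σ τ hE using hsym'
  have hinj : Function.Injective
      (fun q : syms C ⧸ (stab C g).subgroupOf (syms C) => τ q.out g) := by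
    intro q q' hqq
    have hqq' : τ q.out g = τ q'.out g := hqq
    have h1 : (q.out)⁻¹ * q'.out ∈ (stab C g).subgroupOf (syms C) := by
      refine ⟨_, _, isAut_mul (isAut_inv (hE q.out)) (hE q'.out), ?_⟩
      rw [Perm.mul_apply, ← hqq', inv_ap]
    have h2 := QuotientGroup.eq.mpr h1
    rwa [QuotientGroup.out_eq', QuotientGroup.out_eq'] at h2
  have h3 := Nat.card_le_card_of_injective _ hinj
  rw [Subgroup.relIndex, Subgroup.index_eq_card]
  simpa using h3

theorem index_stab_lt [Fintype G] {k : ℕ}
    (hs : Fintype.card G * n.factorial <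
      n.choose k * Nat.card {ρ : Equiv.Perm (Fin n) // C.IsSymmetry ρ}) (g : G) :
    (stab C g).index < n.choose k := by
  have h1 : (stab C g).relIndex (syms C) * (syms C).index = (stab C g).index :=
    Subgroup.relIndex_mul_index (stab_le_syms g)
  have h2 : Nat.card (syms C) * (syms C).index = n.factorial := by
    rw [(syms C).card_mul_index, Nat.card_eq_fintype_card, Fintype.card_perm, Fintype.card_fin]
  have h3 : Nat.card {ρ : Equiv.Perm (Fin n) // C.IsSymmetry ρ} = Nat.card (syms C) := rfl
  rw [h3, ← h2] at hs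
  have h4 : Nat.card (syms C) * (Fintype.card G * (syms C).index) <
      Nat.card (syms C) * n.choose k := by
    calc _ = Fintype.card G * (Nat.card (syms C) * (syms C).index) := by ring
      _ < _ := hs
      _ = _ := by ring
  have h5 := Nat.lt_of_mul_lt_mul_left h4
  rw [← h1]
  exact lt_of_le_of_lt (Nat.mul_le_mul_right _ (relIndex_stab_le g)) h5

theorem conj_mem_stab {g : G} {π : Perm (Fin n)} {σ : Perm ι} {τ : Perm G}
    (h : C.IsAut π σ τ) (ρ : Perm (Fin n)) :
    π * ρ * π⁻¹ ∈ stab C (τ g) ↔ ρ ∈ stab C g := by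
  constructor
  · rintro ⟨σ', τ', h', hg⟩
    have h5 : π⁻¹ * (π * ρ * π⁻¹) * π ∈ stab C g := by
      refine ⟨_, _, isAut_mul (isAut_mul (isAut_inv h) h') h, ?_⟩
      rw [Perm.mul_apply, Perm.mul_apply, hg, inv_ap]
    have h6 : π⁻¹ * (π * ρ * π⁻¹) * π = ρ := by group
    rwa [h6] at h5
  · rintro ⟨σ', τ', h', hg⟩
    refine ⟨_, _, isAut_mul (isAut_mul h h') (isAut_inv h), ?_⟩
    rw [Perm.mul_apply, Perm.mul_apply, inv_ap, hg]

/-- The support of a gate. -/
noncomputable def gateSupp (C : Circuit n ι G) (g : G) : Finset (Fin n) :=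
  Finset.univ.filter fun i => 2 * (cls (stab C g) i).card ≤ n

theorem gateSupp_ext {g : G} {π : Perm (Fin n)} {σ : Perm ι} {τ : Perm G}
    (h : C.IsAut π σ τ) : gateSupp C (τ g) = (gateSupp C g).image π := by
  have h1 : ∀ i, cls (stab C (τ g)) (π i) = (cls (stab C g) i).image π := by
    intro i
    ext x
    rw [mem_cls, Finset.mem_image]
    constructor
    · intro hx
      refine ⟨π⁻¹ x, ?_, ap_inv π x⟩
      rw [mem_cls, ← linked_conj (conj_mem_stab h), ap_inv]
      exact hx
    · rintro ⟨y, hy, rfl⟩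
      rw [linked_conj (conj_mem_stab h)]
      exact mem_cls.mp hy
  ext x
  rw [gateSupp, Finset.mem_filter, Finset.mem_image]
  constructor
  · rintro ⟨-, hx⟩
    refine ⟨π⁻¹ x, ?_, ap_inv π x⟩
    rw [gateSupp, Finset.mem_filter]
    refine ⟨mem_univ _, ?_⟩
    have h2 := h1 (π⁻¹ x)
    rw [ap_inv] at h2
    rwa [h2, Finset.card_image_of_injective _ π.injective] at hx
  · rintro ⟨y, hy, rfl⟩
    rw [gateSupp, Finset.mem_filter] at hy
    refine ⟨mem_univ _, ?_⟩
    rw [h1, Finset.card_image_of_injective _ π.injective]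
    exact hy.2

section small

variable [Fintype G] {k : ℕ} (hk : 1 ≤ k) (hb : 256 * k ≤ n)
  (hs : Fintype.card G * n.factorial <
    n.choose k * Nat.card {ρ : Equiv.Perm (Fin n) // C.IsSymmetry ρ})

include hk hb hs

theorem gate_cls (g : G) : ∃ i, (gateSupp C g).card < k ∧
    ∀ x, x ∉ cls (stab C g) i → x ∈ gateSupp C g := by
  obtain ⟨i, hi⟩ := thm_Sup n (stab C g) k hk hb (index_stab_lt hs g)
  refine ⟨i, ?_, ?_⟩
  · have h1 : gateSupp C g ⊆ (cls (stab C g) i)ᶜ := by
      intro x hx
      rw [Finset.mem_compl]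
      intro hx'
      rw [gateSupp, Finset.mem_filter, ← cls_eq_of_linked (mem_cls.mp hx')] at hx
      omega
    have h2 := Finset.card_le_card h1
    rw [Finset.card_compl, Fintype.card_fin] at h2
    omega
  · intro x hx
    rw [gateSupp, Finset.mem_filter]
    refine ⟨mem_univ _, ?_⟩
    have h1 : cls (stab C g) x ⊆ (cls (stab C g) i)ᶜ := by
      intro y hy
      rw [Finset.mem_compl]
      intro hy'
      apply hx
      rw [mem_cls] at hy hy' ⊢
      exact hy'.trans hy.symm
    have h2 := Finset.card_le_card h1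
    rw [Finset.card_compl, Fintype.card_fin] at h2
    omega

theorem gate_supported (g : G) (π : Perm (Fin n)) (h1 : sign π = 1)
    (h2 : ∀ x ∈ gateSupp C g, π x = x) : π ∈ stab C g := by
  obtain ⟨i, -, hi⟩ := gate_cls hk hb hs g
  exact mem_of_support_cls h1 (fun x hx => h2 x (hi x hx))

end small

/-- The support of a node. -/
noncomputable def nodeSupp (C : Circuit n ι G) : ι ⊕ G → Finset (Fin n)
  | Sum.inl i => Sum.elim (fun j => {j}) (fun _ => ∅) (C.label i)
  | Sum.inr g => gateSupp C g

/-- The abstract system of a circuit. -/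
noncomputable def sys [Fintype ι] [Fintype G] [DecidableEq ι] [DecidableEq G]
    (C : Circuit n ι G)
    (val : (Fin n → Bool) → G → Bool) (hval : ∀ u, C.IsRun u (val u)) :
    WSys (Fin n) (ι ⊕ G) where
  W := fun g c => match g with
    | Sum.inl _ => 0
    | Sum.inr g => C.wires g c
  F := fun c u => Sum.elim (fun i => Sum.elim u id (C.label i)) (val u) c
  Δ := nodeSupp C
  Act := fun π ξ => ∃ σ τ, C.IsAut π σ τ ∧ ξ = Equiv.sumCongr σ τ
  act_F := by
    rintro π ξ ⟨σ, τ, h, rfl⟩ c u
    rcases c with i | g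
    · change Sum.elim u id (C.label (σ i)) = Sum.elim (u ∘ π) id (C.label i)
      rw [h.1 i]
      rcases C.label i with j | c <;> rfl
    · have h1 := isRun_transport (hval u) h
      have h2 := isRun_unique h1 (hval (u ∘ π))
      exact congrFun h2 g
  act_Δ := by
    rintro π ξ ⟨σ, τ, h, rfl⟩ c
    rcases c with i | g
    · change Sum.elim (fun j => {j}) (fun _ => ∅) (C.label (σ i)) =
        (Sum.elim (fun j => {j}) (fun _ => ∅) (C.label i) : Finset (Fin n)).image π
      rw [h.1 i]
      rcases C.label i with j | c <;> simp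
    · exact gateSupp_ext (g := g) h
  act_W := by
    rintro π ξ ⟨σ, τ, h, rfl⟩ g c
    rcases g with a | g
    · simp
    · exact h.2.1 g c

/-- **Structure theorem**: a small circuit with many symmetries does not notice that the values of
a set `B` of variables, whose size has suitable divisibility properties, are changed. -/
theorem output_eq [Fintype ι] [Fintype G] {m k T : ℕ} (hk : 2 ≤ k)
    (hb : 256 * k ≤ n)
    (hs : Fintype.card G * n.factorial <
      n.choose k * Nat.card {ρ : Equiv.Perm (Fin n) // C.IsSymmetry ρ})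
    (hmod : C.Modular m T) (val : (Fin n → Bool) → G → Bool)
    (hval : ∀ u, C.IsRun u (val u)) (B : Finset (Fin n)) (hB : k + 1 ≤ B.card)
    (hm : ∀ j, 1 ≤ j → j < k → m ∣ B.card.choose j) (x y : Fin n → Bool)
    (hx : ∀ i ∈ B, x i = false) (hy : ∀ i ∈ B, y i = true) (hxy : ∀ i, i ∉ B → x i = y i)
    (hZx : T + 2 * k ≤ (Finset.univ.filter fun i => i ∉ B ∧ x i = false).card)
    (hZy : T + 2 * k ≤ (Finset.univ.filter fun i => i ∉ B ∧ y i = true).card) :
    ∀ g, Disjoint (gateSupp C g) B → val x g = val y g := by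
  classical
  let Y := sys C val hval
  have hsmall : ∀ c, (Y.Δ c).card < k := by
    intro c
    rcases c with i | g
    · change (Sum.elim (fun j => {j}) (fun _ => ∅) (C.label i) : Finset (Fin n)).card < k
      rcases C.label i with j | c
      · rw [Sum.elim_inl, Finset.card_singleton]
        omega
      · rw [Sum.elim_inr, Finset.card_empty]
        omega
    · obtain ⟨i, hi, -⟩ := gate_cls (by omega) hb hs g
      exact hi
  have hsupp : ∀ g : G, Y.Supported (Sum.inr g) := by
    intro g π h1 h2
    obtain ⟨σ, τ, h3, h4⟩ := gate_supported (by omega) hb hs g π h1 h2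
    refine ⟨Equiv.sumCongr σ τ, ⟨σ, τ, h3, rfl⟩, ?_⟩
    simp [h4]
  have hcount : ∀ (u : Fin n → Bool) (g : G),
      C.count u (val u) g = Y.cnt (Sum.inr g) u true := fun u g => rfl
  have hfan : ∀ g : G, C.fanIn g = ∑ c, Y.W (Sum.inr g) c := fun g => rfl
  have key : ∀ l, ∀ g, C.level g = l → Disjoint (gateSupp C g) B → val x g = val y g := by
    intro l
    induction l using Nat.strong_induction_on with
    | _ l ih =>
      intro g hg hgB
      have hind : ∀ c, Y.W (Sum.inr g) c ≠ 0 → Disjoint (Y.Δ c) B → Y.F c x = Y.F c y := by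
        intro c hc hcB
        rcases c with i | h
        · change Disjoint (Sum.elim (fun j => {j}) (fun _ => ∅) (C.label i)) B at hcB
          change Sum.elim x id (C.label i) = Sum.elim y id (C.label i)
          cases hl : C.label i with
          | inl j =>
            rw [hl, Sum.elim_inl] at hcB
            exact hxy j (Finset.disjoint_singleton_left.mp hcB)
          | inr c => rfl
        · exact ih (C.level h) (hg ▸ C.level_lt g h hc) h rfl hcB
      obtain ⟨h1, h2⟩ := Y.compare (hsupp g) hgB hx hy hsmall hB hm hZx hZy hind true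
      obtain ⟨-, h3⟩ := Y.compare (hsupp g) hgB hx hy hsmall hB hm hZx hZy hind false
      have h4 := Y.cnt_add (Sum.inr g) x
      have h5 := Y.cnt_add (Sum.inr g) y
      rw [← hfan] at h4 h5
      rw [← hcount] at h1 h2 h4 h5
      rw [← hcount] at h1 h2
      rw [Bool.eq_iff_iff, hval x g, hval y g]
      apply hmod g _ _ (by omega) (by omega) h1 h2
      rw [show C.fanIn g - C.count x (val x) g = Y.cnt (Sum.inr g) x false by omega,
        show C.fanIn g - C.count y (val y) g = Y.cnt (Sum.inr g) y false by omega]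
      exact h3
  exact fun g hg => key _ g rfl hg

/-- The lower bound. -/
theorem lower (m n k T : ℕ) (F : ℕ → Prop) (hm : 2 ≤ m) (hk : 2 ≤ k) (hb : 256 * k ≤ n)
    (ι G : Type) [Fintype ι] [Fintype G] (C : Circuit n ι G)
    (g₀ : G) (hmod : C.Modular m T) (hacc : C.Computes g₀ F)
    (hs : Fintype.card G * n.factorial <
        n.choose k * Nat.card {ρ : Equiv.Perm (Fin n) // C.IsSymmetry ρ}) :
    Regular m n k T F := by
  intro w hw1 hw2
  classical
  choose val hval hout using hacc
  have h2 : k + 1 ≤ period m k := Pool.Agent.Helper18.lt_period hm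
  obtain ⟨i₀, hi₀, -⟩ := gate_cls (by omega) hb hs g₀
  obtain ⟨B, hB1, hB2⟩ := Finset.exists_subset_card_eq (s := (gateSupp C g₀)ᶜ)
    (n := period m k) (by rw [Finset.card_compl, Fintype.card_fin]; omega)
  obtain ⟨W, hW1, hW2⟩ := Finset.exists_subset_card_eq (s := Bᶜ)
    (n := w) (by rw [Finset.card_compl, Fintype.card_fin, hB2]; omega)
  have hd : Disjoint W B := by
    rw [Finset.disjoint_left]
    intro i hi hi'
    exact (Finset.mem_compl.mp (hW1 hi)) hi'
  let x : Fin n → Bool := fun i => decide (i ∈ W)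
  let y : Fin n → Bool := fun i => decide (i ∈ W ∪ B)
  have hxc : (Finset.univ.filter fun i => x i = true).card = w := by
    rw [← hW2]
    congr 1
    ext i
    simp [x]
  have hyc : (Finset.univ.filter fun i => y i = true).card = w + period m k := by
    rw [← hW2, ← hB2, ← Finset.card_union_of_disjoint hd]
    congr 1
    ext i
    simp [y]
  have heq := output_eq (C := C) hk hb hs hmod val hval B
    (by rw [hB2]; exact h2)
    (by rw [hB2]; exact fun j hj hjk => Pool.Agent.Helper18.dvd_choose_period hm hj hjk)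
    x y
    (by
      intro i hi
      simp only [x, decide_eq_false_iff_not]
      exact fun h => Finset.disjoint_left.mp hd h hi)
    (by
      intro i hi
      simp only [y, decide_eq_true_eq]
      exact Finset.mem_union_right _ hi)
    (by
      intro i hi
      simp only [x, y, Finset.mem_union, hi, or_false])
    (by
      have h6 : (Finset.univ.filter fun i => i ∉ B ∧ x i = false) = (W ∪ B)ᶜ := by
        ext i
        simp only [x, Finset.mem_filter, Finset.mem_univ, true_and, decide_eq_false_iff_not,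
          Finset.mem_compl, Finset.mem_union, not_or]
        exact and_comm
      rw [h6, Finset.card_compl, Finset.card_union_of_disjoint hd, Fintype.card_fin, hW2, hB2]
      omega)
    (by
      have h6 : (Finset.univ.filter fun i => i ∉ B ∧ y i = true) = W := by
        ext i
        simp only [y, Finset.mem_filter, Finset.mem_univ, true_and, decide_eq_true_eq,
          Finset.mem_union]
        constructor
        · rintro ⟨h7, h8⟩
          exact h8.resolve_right h7
        · intro h7
          exact ⟨fun h8 => Finset.disjoint_left.mp hd h7 h8, Or.inl h7⟩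
      rw [h6, hW2]
      omega)
    g₀ (by
      rw [Finset.disjoint_right]
      intro i hi
      exact Finset.mem_compl.mp (hB1 hi))
  have h7 := hout x
  have h8 := hout y
  rw [heq, h8, hxc, hyc] at h7
  exact h7.symm

end Pool.Agent.SymCirc
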