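import Pool.Agent.SymCirc.Stmts3

/-! Module Nmc of Theorem B+: the numerical part. -/

namespace Pool.Agent.SymCirc

theorem thm_Nmc : St_Nmc := by
  intro m r K₀
  set C : ℕ := m * 4 ^ r * (4 * (4 * K₀) ^ K₀ + 4) with hC
  set e : ℕ := K₀ + r with he
  refine ⟨2 * (C + e + 1), ?_⟩
  intro n k M P κ Y X hn hnX hk hP hnP hY hYX hM
  have hX : (2 : ℝ) ≤ X := by
    have : (2 : ℝ) ≤ n := by exact_mod_cast hn
    linarith
  have hl2 : (0.6931471803 : ℝ) < Real.log 2 := Real.log_two_gt_d9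
  have hLX : Real.log 2 ≤ Real.log X := Real.log_le_log (by norm_num) hX
  set L : ℝ := Real.log X with hL
  have hκ0 : (0 : ℝ) ≤ κ := Nat.cast_nonneg κ
  set T : ℝ := 2 * ((κ + 1) * L) with hT
  have hLT : 2 * L ≤ T := by
    rw [hT]
    nlinarith
  have hT1 : 1 ≤ T := by linarith
  have hT0 : 0 ≤ T := by linarith
  have hY1 : (1 : ℝ) ≤ Y := by exact_mod_cast hY
  have hlogY : Real.log Y ≤ 8 * L := by
    have h1 := Real.log_le_log (by linarith) hYX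
    rw [Real.log_pow] at h1
    push_cast at h1
    exact h1
  have hlogY0 : 0 ≤ Real.log Y := Real.log_nonneg hY1
  have hMb : (M : ℝ) ≤ (4 * K₀) ^ K₀ * T ^ K₀ := by
    have hK0 : (0 : ℝ) ≤ K₀ := Nat.cast_nonneg K₀
    have h1 : (K₀ * (κ + 1) * Real.log Y : ℝ) ≤ 4 * K₀ * T := by
      have h2 : (K₀ * (κ + 1) * Real.log Y : ℝ) ≤ K₀ * (κ + 1) * (8 * L) :=
        mul_le_mul_of_nonneg_left hlogY (by positivity)
      rw [hT]
      linarith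
    have h3 : (K₀ * (κ + 1) * Real.log Y : ℝ) ^ K₀ ≤ (4 * K₀ * T) ^ K₀ :=
      pow_le_pow_left₀ (by positivity) h1 K₀
    have h4 : (M : ℝ) ≤ ((2 * M : ℕ) : ℝ) := by
      exact_mod_cast (by omega : M ≤ 2 * M)
    calc (M : ℝ) ≤ (4 * K₀ * T) ^ K₀ := h4.trans (hM.trans h3)
      _ = (4 * K₀) ^ K₀ * T ^ K₀ := by rw [mul_pow]
  have hMr : (4 * (M + 1) : ℝ) ≤ ((4 * (4 * K₀) ^ K₀ + 4 : ℕ) : ℝ) * T ^ K₀ := by
    have d3 : (1 : ℝ) ≤ T ^ K₀ := one_le_pow₀ hT1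
    push_cast
    linarith
  have hk4 : (k : ℝ) ≤ 4 * T := by linarith
  have hPr : (P : ℝ) ≤ (m * 4 ^ r : ℕ) * T ^ r := by
    have f1 : (P : ℝ) ≤ m * (k : ℝ) ^ r := by exact_mod_cast hP
    have f2 : (k : ℝ) ^ r ≤ (4 * T) ^ r := pow_le_pow_left₀ (Nat.cast_nonneg _) hk4 r
    have f3 : (m : ℝ) * (k : ℝ) ^ r ≤ m * (4 * T) ^ r :=
      mul_le_mul_of_nonneg_left f2 (Nat.cast_nonneg _)
    calc (P : ℝ) ≤ m * (k : ℝ) ^ r := f1
      _ ≤ m * (4 * T) ^ r := f3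
      _ = (m * 4 ^ r : ℕ) * T ^ r := by push_cast; rw [mul_pow]; ring
  have hmain : (n : ℝ) ≤ C * T ^ e := by
    have g1 : (n : ℝ) ≤ P * (4 * (M + 1)) := by
      have : (n : ℝ) ≤ 4 * P * (M + 1) := by exact_mod_cast hnP
      linarith
    have g2 : (P : ℝ) * (4 * (M + 1)) ≤ ((m * 4 ^ r : ℕ) * T ^ r) *
        (((4 * (4 * K₀) ^ K₀ + 4 : ℕ) : ℝ) * T ^ K₀) := by
      apply mul_le_mul hPr hMr (by positivity) (by positivity)
    calc (n : ℝ) ≤ _ := g1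
      _ ≤ _ := g2
      _ = C * T ^ e := by
        rw [hC, he, pow_add]
        push_cast
        ring
  have hfin : (C : ℝ) * T ^ e ≤
      (((2 * (C + e + 1) : ℕ) : ℝ) * (κ + 1) * L) ^ (2 * (C + e + 1)) := by
    have hbase : ((2 * (C + e + 1) : ℕ) : ℝ) * (κ + 1) * L = ((C + e + 1 : ℕ) : ℝ) * T := by
      rw [hT]; push_cast; ring
    rw [hbase]
    have hK1 : (1 : ℝ) ≤ ((C + e + 1 : ℕ) : ℝ) := by
      exact_mod_cast Nat.le_add_left 1 (C + e)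
    have hb1 : (1 : ℝ) ≤ ((C + e + 1 : ℕ) : ℝ) * T := one_le_mul_of_one_le_of_one_le hK1 hT1
    have i1 : (((C + e + 1 : ℕ) : ℝ) * T) ^ (e + 1) ≤
        (((C + e + 1 : ℕ) : ℝ) * T) ^ (2 * (C + e + 1)) :=
      pow_le_pow_right₀ hb1 (by omega)
    have i2 : (C : ℝ) * T ^ e ≤ (((C + e + 1 : ℕ) : ℝ) * T) ^ (e + 1) := by
      rw [mul_pow ((C + e + 1 : ℕ) : ℝ) T (e + 1)]
      have j1 : (C : ℝ) ≤ ((C + e + 1 : ℕ) : ℝ) ^ (e + 1) := by
        have j2 : (C : ℝ) ≤ ((C + e + 1 : ℕ) : ℝ) := by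
          exact_mod_cast (by omega : C ≤ C + e + 1)
        exact j2.trans (le_self_pow₀ hK1 (by omega))
      have j3 : T ^ e ≤ T ^ (e + 1) := pow_le_pow_right₀ hT1 (by omega)
      exact mul_le_mul j1 j3 (by positivity) (by positivity)
    exact i2.trans i1
  exact hmain.trans hfin

end Pool.Agent.SymCirc
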