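import Pool.Agent.RS.Center

/-!
# Statements of the modules for AC0[p] circuits above symmetric circuits
-/

set_option autoImplicit false

namespace Pool.Agent.SymCirc

open Pool.Agent.RS

/-- Apx: the Razborov-Smolensky bound for circuits that read functions of degree `D`. -/
def St_Apx : Prop :=
  ∀ (p : ℕ) [Fact p.Prime] (U V : Type) [Fintype U] [DecidableEq U] [Fintype V] [DecidableEq V]
    (s : ℕ) (C : RS.Circuit V s) (inp : Finset U → V → Bool) (D : ℕ), 1 ≤ D →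
    (∀ v, (fun z => ind p (inp z v)) ∈ lowDeg (ZMod p) U D) →
    ∀ (M ℓ : ℕ), Fintype.card U = 2 * M → 1 ≤ ℓ →
    (∀ z, C.Accepts p (inp z) ↔ M ≤ z.card) →
    2 * (D * ((p - 1) * ℓ) ^ (C.level C.out + 1) + 1) ^ 2 ≤ M →
    p ^ ℓ ≤ 8 * M ^ 2 * s

/-- Jun: a function of `k` coordinates has degree at most `k`. -/
def St_Jun : Prop :=
  ∀ (F : Type) [Field F] (U : Type) [Fintype U] [DecidableEq U] (k : ℕ) (f : Finset U → F)
    (A : Finset U), A.card ≤ k → (∀ z z', z ∩ A = z' ∩ A → f z = f z') → f ∈ lowDeg F U k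

/-- Nmb: the numerical part. -/
def St_Nmb : Prop :=
  ∀ p m d r : ℕ, 2 ≤ p → ∃ K : ℕ, ∀ (n k M P S : ℕ) (X : ℝ), 2 ≤ n → M ≤ n → (n : ℝ) ≤ X →
    (S : ℝ) ≤ X → (k : ℝ) ≤ 8 * Real.log X → P ≤ m * k ^ r → n ≤ 4 * P * (M + 1) →
    (∀ ℓ, 1 ≤ ℓ → 2 * (k * ((p - 1) * ℓ) ^ d + 1) ^ 2 ≤ M → p ^ ℓ ≤ 8 * M ^ 2 * S) →
    (n : ℝ) ≤ (K * Real.log X) ^ K

end Pool.Agent.SymCirc
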