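import Pool.Agent.RS.Circuit

/-!
# Statements of further modules
-/

set_option autoImplicit false

namespace Pool.Agent.SymCirc

open Pool.Agent.RS

/-- Cmp: substitution of functions of `k` variables into a circuit. -/
def St_Cmp : Prop :=
  ∀ (p : ℕ) (V : Type) [Fintype V] (N k s : ℕ) (e : V → Fin k → Fin N)
    (φ : V → (Fin k → Bool) → Bool) (C : RS.Circuit V s),
    ∃ C' : RS.Circuit (Fin N) (s + (N + Fintype.card V * (2 ^ k + 1))),
      C'.level C'.out = C.level C.out + 3 ∧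
      ∀ u : Fin N → Bool, C'.Accepts p u ↔ C.Accepts p (fun v => φ v (fun i => u (e v i)))

/-- Avg: averaging over the permutations of the variables. -/
def St_Avg : Prop :=
  ∀ (n r : ℕ) (Z : Type) [Fintype Z] (f : Z → Fin n → Bool) (A : Finset (Fin n → Bool)) (w : ℕ),
    (∀ z, (Finset.univ.filter fun i => f z i = true).card = w) →
    (∀ x ∈ A, (Finset.univ.filter fun i => x i = true).card = w) →
    n.choose w ≤ r * A.card →
    ∃ π : Equiv.Perm (Fin n),
      Fintype.card Z ≤ r * (Finset.univ.filter fun z : Z => f z ∘ π ∈ A).card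

/-- Nmc: the numerical part. -/
def St_Nmc : Prop :=
  ∀ m r K₀ : ℕ, ∃ K : ℕ, ∀ (n k M P κ Y : ℕ) (X : ℝ), 2 ≤ n → (n : ℝ) ≤ X →
    (k : ℝ) ≤ 8 * Real.log X → P ≤ m * k ^ r → n ≤ 4 * P * (M + 1) →
    1 ≤ Y → (Y : ℝ) ≤ X ^ 8 →
    ((2 * M : ℕ) : ℝ) ≤ (K₀ * (κ + 1) * Real.log Y) ^ K₀ →
    (n : ℝ) ≤ (K * (κ + 1) * Real.log X) ^ K

end Pool.Agent.SymCirc
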